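import Pool.Agent.Helper24.KE.Low

/-!
# Asymptotic bounds for the defects of hypersurfaces
-/

set_option autoImplicit false

open CategoryTheory AlgebraicGeometry MvPolynomial Pool.Agent.Y116.UV Pool.Agent.Helper62.EC

namespace Pool.Agent.Helper24.KE

section

variable {k : Type} [Field k]

/-- The translation `x_0 ↦ x_0 + j`. -/
noncomputable def tr (k : Type) [Field k] (m j : ℕ) :
    MvPolynomial (Fin (m + 1)) k ≃ₐ[k] MvPolynomial (Fin (m + 1)) k :=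
  ((finSuccEquiv k m).trans ((Polynomial.taylorEquiv (C (j : k) : MvPolynomial (Fin m) k)).restrictScalars
    k)).trans (finSuccEquiv k m).symm

/-- A size of polynomials. -/
structure Size (sz : ∀ m, MvPolynomial (Fin m) k → ℝ) : Prop where
  nonneg : ∀ m F, 0 ≤ sz m F
  copies : ∃ K : ℝ, 0 ≤ K ∧ ∀ m (g : MvPolynomial (Fin m) k) (n : ℕ),
    sz (m + 1) (up g * pr k m n) ≤ sz m g + K * n
  trans : ∀ m (p : MvPolynomial (Fin (m + 1)) k), ∃ K : ℝ, 0 ≤ K ∧ ∀ n : ℕ,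
    sz (m + 1) (∏ j ∈ Finset.range n, tr k m j p) ≤ K * (n + 1)
  graph : ∃ K : ℝ, 0 ≤ K ∧ ∀ m (F : MvPolynomial (Fin m) k), ∃ a : k, a ≠ 0 ∧
    sz (m + 1) (X 0 * up (C a * F) - 1) ≤ sz m F + K

/-- The defects of the hypersurfaces `F = 0` are `o(sz(F)^κ)`. -/
def Small (sz : ∀ m, MvPolynomial (Fin m) k → ℝ) (Q : Sch k → ℤ → Prop) (m κ : ℕ) : Prop :=
  ∀ ε : ℝ, 0 < ε → ∃ B : ℝ, ∀ F : MvPolynomial (Fin m) k, ∃ c : ℤ, Q (V F) c ∧
    |(c : ℝ)| ≤ ε * sz m F ^ κ + B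

end

variable {k : Type} [Field k] {sep : Prop} {Q : Sch k → ℤ → Prop} (hQ : Dfc sep Q)
  {sz : ∀ m, MvPolynomial (Fin m) k → ℝ}

include hQ

lemma Small.fn {m κ : ℕ} (h : Small sz Q m κ) : ∃ e : MvPolynomial (Fin m) k → ℤ,
    (∀ F, Q (V F) (e F)) ∧ ∀ ε : ℝ, 0 < ε → ∃ B : ℝ, ∀ F, |(e F : ℝ)| ≤ ε * sz m F ^ κ + B := by
  obtain ⟨_, h1⟩ := h 1 one_pos
  choose e he _ using h1
  refine ⟨e, he, fun ε hε => ?_⟩
  obtain ⟨B, hB⟩ := h ε hε
  refine ⟨B, fun F => ?_⟩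
  obtain ⟨c, h2, h3⟩ := hB F
  rwa [hQ.uniq (he F) h2]

variable [CharZero k] (hs : ∀ m : ℕ, Q (aff k (MvPolynomial (Fin m) k)) 0) (hz : Size sz)

include hs hz

/-- One variable less, and one power less. -/
theorem drop {m κ : ℕ} (h : Small sz Q (m + 1) (κ + 1)) : Small sz Q m κ := by
  obtain ⟨e, he, hB⟩ := h.fn hQ
  obtain ⟨K, hK, hK2⟩ := hz.copies
  intro ε hε
  have hd : (0 : ℝ) < 2 * (K + 1) ^ (κ + 1) * 2 ^ κ := by positivity
  obtain ⟨B, hB⟩ := hB (ε / (2 * (K + 1) ^ (κ + 1) * 2 ^ κ)) (by positivity)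
  refine ⟨ε * 2 ^ κ + 2 * |B|, fun g => ?_⟩
  obtain ⟨c, h1, h2⟩ := copies hQ hs he g
  refine ⟨c, h1, ?_⟩
  set l := sz m g with hl
  have hl0 : 0 ≤ l := hz.nonneg m g
  set n : ℕ := ⌈l⌉₊ + 1 with hn
  have hn1 : (1 : ℝ) ≤ n := by
    rw [hn]
    push_cast
    linarith [Nat.cast_nonneg (α := ℝ) ⌈l⌉₊]
  have hn2 : l ≤ n := by
    rw [hn]
    push_cast
    linarith [Nat.le_ceil l]
  have hn3 : (n : ℝ) ≤ l + 2 := by
    rw [hn]
    push_cast
    linarith [Nat.ceil_lt_add_one hl0]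
  set ε' := ε / (2 * (K + 1) ^ (κ + 1) * 2 ^ κ) with hε'
  have hε'0 : 0 < ε' := by positivity
  have hb : ∀ j : ℕ, (j : ℝ) ≤ n → |(e (up g * pr k m j) : ℝ)| ≤
      ε' * ((K + 1) * n) ^ (κ + 1) + |B| := by
    intro j hj
    refine (hB _).trans ?_
    have h3 : sz (m + 1) (up g * pr k m j) ≤ (K + 1) * n := by
      refine (hK2 m g j).trans ?_
      have h4 : K * j ≤ K * n := mul_le_mul_of_nonneg_left hj hK
      nlinarith
    have h4 : sz (m + 1) (up g * pr k m j) ^ (κ + 1) ≤ ((K + 1) * n) ^ (κ + 1) :=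
      pow_le_pow_left₀ (hz.nonneg _ _) h3 _
    have h5 := mul_le_mul_of_nonneg_left h4 hε'0.le
    linarith [le_abs_self B]
  have h3 : (n : ℝ) * |(c : ℝ)| ≤ 2 * (ε' * ((K + 1) * n) ^ (κ + 1) + |B|) := by
    have h4 : ((n : ℤ) * c : ℝ) = (e (up g * pr k m 0) : ℝ) - (e (up g * pr k m n) : ℝ) := by
      exact_mod_cast h2 n
    have h5 : (n : ℝ) * |(c : ℝ)| = |((n : ℤ) * c : ℝ)| := by
      rw [abs_mul]
      congr 1
      push_cast
      rw [abs_of_nonneg (by linarith)]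
    rw [h5, h4]
    refine (abs_sub _ _).trans ?_
    have h6 := hb 0 (by push_cast; linarith)
    have h7 := hb n le_rfl
    linarith
  have h4 : 2 * (ε' * ((K + 1) * n) ^ (κ + 1)) = n * (ε / 2 ^ κ * (n : ℝ) ^ κ) := by
    rw [hε', mul_pow, pow_succ (K + 1), pow_succ (n : ℝ)]
    field_simp
  have h5 : |(c : ℝ)| ≤ ε / 2 ^ κ * (n : ℝ) ^ κ + 2 * |B| := by
    have h6 : (n : ℝ) * |(c : ℝ)| ≤ n * (ε / 2 ^ κ * (n : ℝ) ^ κ + 2 * |B|) := by
      refine h3.trans ?_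
      rw [mul_add, h4]
      have h7 : 2 * |B| ≤ n * (2 * |B|) := by nlinarith [abs_nonneg B]
      rw [mul_add]
      linarith
    exact le_of_mul_le_mul_left h6 (by linarith)
  refine h5.trans ?_
  have h6 : (n : ℝ) ^ κ ≤ 2 ^ κ * (l ^ κ + 2 ^ κ) := by
    refine (pow_le_pow_left₀ (by linarith) hn3 κ).trans ?_
    refine (add_pow_le hl0 (by norm_num) κ).trans ?_
    refine mul_le_mul_of_nonneg_right ?_ (by positivity)
    exact pow_le_pow_right₀ (by norm_num) (Nat.sub_le _ _)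
  have h7 : ε / 2 ^ κ * (n : ℝ) ^ κ ≤ ε * l ^ κ + ε * 2 ^ κ := by
    refine (mul_le_mul_of_nonneg_left h6 (by positivity)).trans (le_of_eq ?_)
    have h8 : (2 : ℝ) ^ κ ≠ 0 := by positivity
    rw [← mul_assoc, div_mul_cancel₀ _ h8, mul_add]
  linarith

/-- The last step. -/
theorem last {m : ℕ} (h : Small sz Q (m + 1) 1) (g : MvPolynomial (Fin m) k) : Q (V g) 0 := by
  obtain ⟨e, he, hB⟩ := h.fn hQ
  obtain ⟨K, hK, hK2⟩ := hz.copies
  obtain ⟨B, hB⟩ := hB (1 / (2 * (K + 1))) (by positivity)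
  obtain ⟨c, h1, h2⟩ := copies hQ hs he g
  rcases eq_or_ne c 0 with hc | hc
  · rwa [hc] at h1
  exfalso
  have hc1 : (1 : ℝ) ≤ |(c : ℝ)| := by
    have : (1 : ℤ) ≤ |c| := Int.one_le_abs hc
    exact_mod_cast this
  have hl0 : 0 ≤ sz m g := hz.nonneg m g
  obtain ⟨n, hn⟩ := exists_nat_gt (2 * (|(e (up g * pr k m 0) : ℝ)| + sz m g + |B|))
  have h4 : ((n : ℤ) * c : ℝ) = (e (up g * pr k m 0) : ℝ) - (e (up g * pr k m n) : ℝ) := by
    exact_mod_cast h2 n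
  have h5 : (n : ℝ) * |(c : ℝ)| = |((n : ℤ) * c : ℝ)| := by
    rw [abs_mul]
    congr 1
    push_cast
    rw [abs_of_nonneg (Nat.cast_nonneg n)]
  have h6 : (n : ℝ) ≤ n * |(c : ℝ)| := by nlinarith [Nat.cast_nonneg (α := ℝ) n]
  rw [h5, h4] at h6
  have h7 := h6.trans (abs_sub _ _)
  have h8 := hB (up g * pr k m n)
  rw [pow_one] at h8
  have h9 : 1 / (2 * (K + 1)) * sz (m + 1) (up g * pr k m n) ≤ sz m g + (n : ℝ) / 2 := by
    have h10 : 1 / (2 * (K + 1)) * sz (m + 1) (up g * pr k m n) ≤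
        1 / (2 * (K + 1)) * (sz m g + K * n) :=
      mul_le_mul_of_nonneg_left (hK2 m g n) (by positivity)
    refine h10.trans ?_
    rw [mul_add]
    have h11 : 1 / (2 * (K + 1)) * sz m g ≤ sz m g := by
      have : 1 / (2 * (K + 1)) ≤ 1 := by
        rw [div_le_one (by positivity)]
        linarith
      nlinarith
    have h12 : 1 / (2 * (K + 1)) * (K * n) ≤ (n : ℝ) / 2 := by
      rw [div_mul_eq_mul_div, one_mul, div_le_div_iff₀ (by positivity) (by norm_num)]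
      nlinarith [Nat.cast_nonneg (α := ℝ) n]
    linarith
  linarith [le_abs_self B]

/-- Many steps. -/
theorem down {m : ℕ} (κ : ℕ) (h : Small sz Q (m + (κ + 1)) (κ + 1)) : Small sz Q (m + 1) 1 := by
  induction κ with
  | zero => exact h
  | succ κ ih => exact ih (drop hQ hs hz (m := m + (κ + 1)) h)

end Pool.Agent.Helper24.KE
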