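import Mathlib

/-!
# The degree and the sum of the absolute values of the coefficients
-/

set_option autoImplicit false

open MvPolynomial

namespace Pool.Agent.Helper24.KE

section nrm

variable {σ τ : Type}

/-- The sum of the absolute values of the coefficients of a polynomial with integer
coefficients. -/
def nrm (F : MvPolynomial σ ℤ) : ℕ := ∑ s ∈ F.support, (coeff s F).natAbs

lemma nrm_eq {F : MvPolynomial σ ℤ} {T : Finset (σ →₀ ℕ)} (hT : F.support ⊆ T) :
    nrm F = ∑ s ∈ T, (coeff s F).natAbs := by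
  refine Finset.sum_subset hT fun s _ hs => ?_
  rw [notMem_support_iff] at hs
  rw [hs]
  rfl

lemma nrm_zero : nrm (0 : MvPolynomial σ ℤ) = 0 := by simp [nrm]

lemma nrm_add (F G : MvPolynomial σ ℤ) : nrm (F + G) ≤ nrm F + nrm G := by
  classical
  have h1 : (F + G).support ⊆ F.support ∪ G.support := support_add
  rw [nrm_eq h1, nrm_eq (F := F) (T := F.support ∪ G.support) Finset.subset_union_left,
    nrm_eq (F := G) (T := F.support ∪ G.support) Finset.subset_union_right,
    ← Finset.sum_add_distrib]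
  refine Finset.sum_le_sum fun s _ => ?_
  rw [coeff_add]
  exact Int.natAbs_add_le _ _

lemma nrm_sum {ι : Type*} (T : Finset ι) (f : ι → MvPolynomial σ ℤ) :
    nrm (∑ i ∈ T, f i) ≤ ∑ i ∈ T, nrm (f i) := by
  classical
  induction T using Finset.induction_on with
  | empty => simp [nrm_zero]
  | insert a T ha ih =>
    rw [Finset.sum_insert ha, Finset.sum_insert ha]
    exact (nrm_add _ _).trans (Nat.add_le_add_left ih _)

lemma nrm_monomial (s : σ →₀ ℕ) (a : ℤ) : nrm (monomial s a) ≤ a.natAbs := by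
  classical
  rw [nrm_eq (T := {s}) support_monomial_subset, Finset.sum_singleton, coeff_monomial, if_pos rfl]

lemma nrm_mul (F G : MvPolynomial σ ℤ) : nrm (F * G) ≤ nrm F * nrm G := by
  conv_lhs => rw [F.as_sum, G.as_sum, Finset.sum_mul_sum]
  refine (nrm_sum _ _).trans ?_
  unfold nrm
  rw [Finset.sum_mul_sum]
  refine Finset.sum_le_sum fun s _ => (nrm_sum _ _).trans (Finset.sum_le_sum fun t _ => ?_)
  rw [monomial_mul]
  refine (nrm_monomial _ _).trans ?_
  rw [Int.natAbs_mul]

lemma nrm_C (a : ℤ) : nrm (C a : MvPolynomial σ ℤ) ≤ a.natAbs := nrm_monomial 0 a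

lemma nrm_one : nrm (1 : MvPolynomial σ ℤ) ≤ 1 := nrm_C 1

lemma nrm_X (i : σ) : nrm (X i : MvPolynomial σ ℤ) ≤ 1 := nrm_monomial _ 1

lemma nrm_neg (F : MvPolynomial σ ℤ) : nrm (-F) ≤ nrm F := by
  have h : -F = C (-1) * F := by rw [C_neg, C_1]; ring
  rw [h]
  refine (nrm_mul _ _).trans ?_
  have h2 := nrm_C (σ := σ) (-1)
  have h3 : (-1 : ℤ).natAbs = 1 := rfl
  rw [h3] at h2
  calc nrm (C (-1) : MvPolynomial σ ℤ) * nrm F ≤ 1 * nrm F := Nat.mul_le_mul_right _ h2
    _ = nrm F := one_mul _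

lemma nrm_prod {ι : Type*} (T : Finset ι) (f : ι → MvPolynomial σ ℤ) :
    nrm (∏ i ∈ T, f i) ≤ ∏ i ∈ T, nrm (f i) := by
  classical
  induction T using Finset.induction_on with
  | empty => simpa using nrm_one
  | insert a T ha ih =>
    rw [Finset.prod_insert ha, Finset.prod_insert ha]
    exact (nrm_mul _ _).trans (Nat.mul_le_mul_left _ ih)

lemma nrm_pow (F : MvPolynomial σ ℤ) (n : ℕ) : nrm (F ^ n) ≤ nrm F ^ n := by
  have h := nrm_prod (Finset.range n) fun _ => F
  simpa using h

/-- Substitutions. -/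
lemma nrm_bind (q : σ → MvPolynomial τ ℤ) {M : ℕ} (hM : 1 ≤ M) (hq : ∀ i, nrm (q i) ≤ M)
    (F : MvPolynomial σ ℤ) : nrm (bind₁ q F) ≤ nrm F * M ^ F.totalDegree := by
  have h1 : bind₁ q F = ∑ s ∈ F.support, C (coeff s F) * ∏ i ∈ s.support, q i ^ s i := by
    rw [← aeval_eq_bind₁, aeval_def, eval₂_eq]
    rfl
  rw [h1]
  refine (nrm_sum _ _).trans ?_
  rw [nrm, Finset.sum_mul]
  refine Finset.sum_le_sum fun s hs => (nrm_mul _ _).trans ?_
  refine Nat.mul_le_mul (nrm_C _) ?_
  refine (nrm_prod _ _).trans ?_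
  have h2 : ∏ i ∈ s.support, nrm (q i ^ s i) ≤ ∏ i ∈ s.support, M ^ s i :=
    Finset.prod_le_prod' fun i _ => (nrm_pow _ _).trans (Nat.pow_le_pow_left (hq i) _)
  refine h2.trans ?_
  rw [Finset.prod_pow_eq_pow_sum]
  exact Nat.pow_le_pow_right hM (le_totalDegree hs)

end nrm

section deg

variable {σ τ R : Type} [CommRing R]

/-- The degree and substitutions. -/
lemma deg_bind (q : σ → MvPolynomial τ R) (hq : ∀ i, (q i).totalDegree ≤ 1)
    (F : MvPolynomial σ R) : (bind₁ q F).totalDegree ≤ F.totalDegree := by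
  have h1 : bind₁ q F = ∑ s ∈ F.support, C (coeff s F) * ∏ i ∈ s.support, q i ^ s i := by
    rw [← aeval_eq_bind₁, aeval_def, eval₂_eq]
    rfl
  rw [h1]
  refine totalDegree_finsetSum_le fun s hs => ?_
  refine (totalDegree_mul _ _).trans ?_
  rw [totalDegree_C, zero_add]
  refine (totalDegree_finsetProd _ _).trans ?_
  refine (Finset.sum_le_sum fun i _ => (totalDegree_pow _ _).trans
    (Nat.mul_le_mul_left _ (hq i))).trans ?_
  simp only [mul_one]
  exact le_totalDegree hs

end deg

/-! ### The function `x / log (x + 3)` -/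

/-- The function `x / log (x + 3)`. -/
noncomputable def ell (x : ℝ) : ℝ := x / Real.log (x + 3)

lemma one_le_log {x : ℝ} (hx : 0 ≤ x) : 1 ≤ Real.log (x + 3) := by
  rw [Real.le_log_iff_exp_le (by linarith)]
  linarith [Real.exp_one_lt_three]

lemma ell_nonneg {x : ℝ} (hx : 0 ≤ x) : 0 ≤ ell x :=
  div_nonneg hx (zero_le_one.trans (one_le_log hx))

lemma ell_le {x : ℝ} (hx : 0 ≤ x) : ell x ≤ x := div_le_self hx (one_le_log hx)

lemma ell_mono {x y : ℝ} (hx : 0 ≤ x) (hxy : x ≤ y) : ell x ≤ ell y := by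
  have hy := hx.trans hxy
  have h1 := one_le_log hx
  have h2 := one_le_log hy
  unfold ell
  rw [div_le_div_iff₀ (by linarith) (by linarith)]
  have h3 : Real.log (y + 3) - Real.log (x + 3) ≤ (y - x) / (x + 3) := by
    rw [← Real.log_div (by linarith) (by linarith)]
    refine (Real.log_le_sub_one_of_pos (by positivity)).trans (le_of_eq ?_)
    field_simp
    ring
  have h4 : x * ((y - x) / (x + 3)) ≤ y - x := by
    rw [mul_div_assoc', div_le_iff₀ (by linarith)]
    nlinarith
  nlinarith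

lemma ell_add {x y : ℝ} (hx : 0 ≤ x) (hy : 0 ≤ y) : ell (x + y) ≤ ell x + ell y := by
  unfold ell
  rw [add_div]
  have h1 := one_le_log hx
  have h2 := one_le_log hy
  refine add_le_add ?_ ?_
  · refine div_le_div_of_nonneg_left hx (by linarith) (Real.log_le_log (by linarith) (by linarith))
  · refine div_le_div_of_nonneg_left hy (by linarith) (Real.log_le_log (by linarith) (by linarith))

lemma ell_nmul {x : ℝ} (hx : 0 ≤ x) (n : ℕ) : ell (n * x) ≤ n * ell x := by
  induction n with
  | zero => simp [ell]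
  | succ n ih =>
    push_cast
    rw [add_mul, add_mul, one_mul, one_mul]
    exact (ell_add (by positivity) hx).trans (by linarith)

/-- `n log (n + 3)` -/
lemma ell_nlog (n : ℕ) : ell (n * Real.log (n + 3)) ≤ n := by
  have h0 : (0 : ℝ) ≤ n := Nat.cast_nonneg n
  have h1 := one_le_log h0
  unfold ell
  have h2 : (n : ℝ) + 3 ≤ n * Real.log (n + 3) + 3 := by nlinarith
  have h3 : Real.log (n + 3) ≤ Real.log (n * Real.log (n + 3) + 3) :=
    Real.log_le_log (by linarith) h2
  rw [div_le_iff₀ (by linarith)]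
  exact mul_le_mul_of_nonneg_left h3 h0

end Pool.Agent.Helper24.KE
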