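import Pool.Agent.Helper24.KE.One
import Pool.Agent.Helper24.KE.Nrm

/-!
# The two sizes of polynomials
-/

set_option autoImplicit false

open CategoryTheory AlgebraicGeometry MvPolynomial Pool.Agent.Y116.UV

namespace Pool.Agent.Helper24.KE

section

variable (k : Type) [Field k]

/-- The translation, as a substitution. -/
noncomputable def trX (m j : ℕ) (i : Fin (m + 1)) : MvPolynomial (Fin (m + 1)) k :=
  if i = 0 then X i + C (j : k) else X i

lemma tr_eq (m j : ℕ) (p : MvPolynomial (Fin (m + 1)) k) : tr k m j p = bind₁ (trX k m j) p := by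
  have h : (tr k m j : MvPolynomial (Fin (m + 1)) k →ₐ[k] MvPolynomial (Fin (m + 1)) k) =
      bind₁ (trX k m j) := by
    apply MvPolynomial.algHom_ext
    intro i
    rw [bind₁_X_right]
    apply (finSuccEquiv k m).injective
    change finSuccEquiv k m (tr k m j (X i)) = _
    rw [finSucc_tr]
    refine Fin.cases ?_ (fun i => ?_) i
    · rw [trX, if_pos rfl, finSuccEquiv_X_zero, Polynomial.taylor_X, map_add, finSuccEquiv_X_zero]
      congr 1
      have h1 : finSuccEquiv k m (C (j : k)) = Polynomial.C (C (j : k)) := (finSuccEquiv k m).commutes _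
      rw [h1, map_natCast, map_natCast]
      exact map_natCast Polynomial.C j
    · rw [trX, if_neg (Fin.succ_ne_zero i), finSuccEquiv_X_succ, Polynomial.taylor_C]
  exact DFunLike.congr_fun h p

lemma deg_trX (m j : ℕ) (i : Fin (m + 1)) : (trX k m j i).totalDegree ≤ 1 := by
  unfold trX
  split_ifs
  · refine (totalDegree_add _ _).trans (max_le (totalDegree_X _).le ?_)
    rw [totalDegree_C]
    exact zero_le
  · exact (totalDegree_X _).le

lemma deg_tr (m j : ℕ) (p : MvPolynomial (Fin (m + 1)) k) :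
    (tr k m j p).totalDegree ≤ p.totalDegree := by
  rw [tr_eq]
  exact deg_bind _ (deg_trX k m j) p

lemma deg_prod_tr (m n : ℕ) (p : MvPolynomial (Fin (m + 1)) k) :
    (∏ j ∈ Finset.range n, tr k m j p).totalDegree ≤ n * p.totalDegree := by
  refine (totalDegree_finsetProd _ _).trans ?_
  refine (Finset.sum_le_sum fun j _ => deg_tr k m j p).trans (le_of_eq ?_)
  rw [Finset.sum_const, Finset.card_range, smul_eq_mul]

lemma deg_pr (m n : ℕ) : (pr k m n).totalDegree ≤ n := by
  refine (totalDegree_finsetProd _ _).trans ?_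
  have h1 : ∀ j ∈ Finset.range n, (X 0 - C (j : k) : MvPolynomial (Fin (m + 1)) k).totalDegree ≤ 1 :=
    fun j _ => (totalDegree_sub_C_le _ _).trans (totalDegree_X _).le
  refine (Finset.sum_le_sum h1).trans (le_of_eq ?_)
  rw [Finset.sum_const, Finset.card_range, smul_eq_mul, mul_one]

variable {k}

lemma deg_up {m : ℕ} (g : MvPolynomial (Fin m) k) : (up g).totalDegree ≤ g.totalDegree :=
  totalDegree_rename_le _ _

lemma deg_copies {m : ℕ} (g : MvPolynomial (Fin m) k) (n : ℕ) :
    (up g * pr k m n).totalDegree ≤ g.totalDegree + n :=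
  (totalDegree_mul _ _).trans (add_le_add (deg_up g) (deg_pr k m n))

lemma deg_graph {m : ℕ} (F : MvPolynomial (Fin m) k) :
    (X 0 * up F - 1 : MvPolynomial (Fin (m + 1)) k).totalDegree ≤ F.totalDegree + 1 := by
  rw [← C_1]
  refine (totalDegree_sub_C_le _ _).trans ((totalDegree_mul _ _).trans ?_)
  rw [totalDegree_X, add_comm]
  exact Nat.add_le_add_right (deg_up F) 1

/-- The degree is a size. -/
theorem size_deg : Size (k := k) fun _ F => (F.totalDegree : ℝ) where
  nonneg m F := Nat.cast_nonneg _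
  copies := ⟨1, zero_le_one, fun m g n => by
    rw [one_mul]
    exact_mod_cast deg_copies g n⟩
  trans m p := ⟨p.totalDegree, Nat.cast_nonneg _, fun n => by
    have h1 : ((∏ j ∈ Finset.range n, tr k m j p).totalDegree : ℝ) ≤ n * p.totalDegree := by
      exact_mod_cast deg_prod_tr k m n p
    nlinarith [Nat.cast_nonneg (α := ℝ) p.totalDegree]⟩
  graph := ⟨1, zero_le_one, fun m F => ⟨1, one_ne_zero, by
    rw [C_1, one_mul]
    exact_mod_cast deg_graph F⟩⟩

end

/-! ### Heights -/

section heights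

/-- the polynomial with rational coefficients -/
noncomputable abbrev toQ {σ : Type} (F : MvPolynomial σ ℤ) : MvPolynomial σ ℚ :=
  map (algebraMap ℤ ℚ) F

/-- `F₀` is a non-zero integral multiple of `F` with integral coefficients -/
def IsRep {σ : Type} (F : MvPolynomial σ ℚ) (F₀ : MvPolynomial σ ℤ) : Prop :=
  ∃ N : ℤ, N ≠ 0 ∧ toQ F₀ = C (N : ℚ) * F

lemma exists_rep {σ : Type} (F : MvPolynomial σ ℚ) : ∃ F₀, IsRep F F₀ := by
  induction F using MvPolynomial.induction_on with
  | C a =>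
    refine ⟨C a.num, a.den, by exact_mod_cast a.den_ne_zero, ?_⟩
    rw [toQ, map_C, ← C_mul]
    congr 1
    have h := Rat.den_mul_eq_num a
    rw [eq_intCast, ← h]
    push_cast
    ring
  | add F G h1 h2 =>
    obtain ⟨F₀, N, hN, h1⟩ := h1
    obtain ⟨G₀, M, hM, h2⟩ := h2
    refine ⟨C M * F₀ + C N * G₀, N * M, mul_ne_zero hN hM, ?_⟩
    unfold toQ at h1 h2 ⊢
    rw [map_add, map_mul, map_mul, h1, h2, map_C, map_C, eq_intCast, eq_intCast]
    push_cast
    rw [C_mul]
    ring
  | mul_X F i h1 =>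
    obtain ⟨F₀, N, hN, h1⟩ := h1
    refine ⟨F₀ * X i, N, hN, ?_⟩
    unfold toQ at h1 ⊢
    rw [map_mul, h1, map_X, mul_assoc]

open Classical in
/-- The smallest norm of an integral multiple. -/
noncomputable def ht {σ : Type} (F : MvPolynomial σ ℚ) : ℕ := sInf {h | ∃ F₀, IsRep F F₀ ∧ nrm F₀ = h}

lemma ht_spec {σ : Type} (F : MvPolynomial σ ℚ) : ∃ F₀, IsRep F F₀ ∧ nrm F₀ = ht F := by
  obtain ⟨F₀, h⟩ := exists_rep F
  exact Nat.sInf_mem (s := {h | ∃ F₀, IsRep F F₀ ∧ nrm F₀ = h}) ⟨_, F₀, h, rfl⟩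

lemma ht_le {σ : Type} {F : MvPolynomial σ ℚ} {F₀ : MvPolynomial σ ℤ} (h : IsRep F F₀) :
    ht F ≤ nrm F₀ := Nat.sInf_le ⟨F₀, h, rfl⟩

lemma rep_deg {σ : Type} {F : MvPolynomial σ ℚ} {F₀ : MvPolynomial σ ℤ} (h : IsRep F F₀) :
    F₀.totalDegree ≤ F.totalDegree := by
  obtain ⟨N, hN, h1⟩ := h
  have h2 : (toQ F₀).support = F₀.support :=
    support_map_of_injective _ (RingHom.injective_int (algebraMap ℤ ℚ))
  unfold totalDegree
  refine Finset.sup_mono ?_
  rw [← h2, h1]
  intro s hs
  rw [mem_support_iff, coeff_C_mul] at hs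
  rw [mem_support_iff]
  exact right_ne_zero_of_mul hs

lemma log_le_of_le_mul {a b c : ℕ} (h : a ≤ b * c) :
    Real.log a ≤ Real.log b + Real.log c := by
  rcases Nat.eq_zero_or_pos a with ha | ha
  · rw [ha, Nat.cast_zero, Real.log_zero]
    exact add_nonneg (Real.log_natCast_nonneg _) (Real.log_natCast_nonneg _)
  · have hbc : 0 < b * c := lt_of_lt_of_le ha h
    have hb : 0 < b := Nat.pos_of_mul_pos_right hbc
    have hc : 0 < c := Nat.pos_of_mul_pos_left hbc
    rw [← Real.log_mul (by positivity) (by positivity)]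
    refine Real.log_le_log (by exact_mod_cast ha) ?_
    exact_mod_cast h

/-- The size `deg F + log h / log (log h + 3)`, where `h` is the smallest norm of an integral multiple
of `F`. -/
noncomputable def szh (m : ℕ) (F : MvPolynomial (Fin m) ℚ) : ℝ :=
  F.totalDegree + ell (Real.log (ht F))

lemma nrm_X_add {σ : Type} (i : σ) (j : ℕ) :
    nrm (X i + C (j : ℤ) : MvPolynomial σ ℤ) ≤ j + 1 := by
  refine (nrm_add _ _).trans ?_
  have h1 := nrm_X i
  have h2 := nrm_C (σ := σ) (j : ℤ)
  rw [Int.natAbs_natCast] at h2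
  omega

lemma nrm_X_sub {σ : Type} (i : σ) (j : ℕ) :
    nrm (X i - C (j : ℤ) : MvPolynomial σ ℤ) ≤ j + 1 := by
  rw [sub_eq_add_neg]
  refine (nrm_add _ _).trans ?_
  have h1 := nrm_X i
  have h2 := (nrm_neg _).trans (nrm_C (σ := σ) (j : ℤ))
  rw [Int.natAbs_natCast] at h2
  omega

lemma prod_le (n : ℕ) : ∏ j ∈ Finset.range n, (j + 1) ≤ (n + 3) ^ n := by
  refine (Finset.prod_le_prod' (g := fun _ => n + 3) fun j hj => ?_).trans (le_of_eq ?_)
  · rw [Finset.mem_range] at hj
    omega
  · rw [Finset.prod_const, Finset.card_range]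

lemma nrm_up {m : ℕ} (F : MvPolynomial (Fin m) ℤ) : nrm (rename Fin.succ F) ≤ nrm F := by
  have h1 : rename Fin.succ F = bind₁ (fun i : Fin m => (X i.succ : MvPolynomial (Fin (m + 1)) ℤ)) F := by
    have h2 : (rename Fin.succ : MvPolynomial (Fin m) ℤ →ₐ[ℤ] MvPolynomial (Fin (m + 1)) ℤ) =
        bind₁ (fun i : Fin m => (X i.succ : MvPolynomial (Fin (m + 1)) ℤ)) :=
      MvPolynomial.algHom_ext fun i => by rw [rename_X, bind₁_X_right]
    exact DFunLike.congr_fun h2 F
  rw [h1]
  refine (nrm_bind _ le_rfl (fun i => nrm_X _) F).trans ?_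
  rw [one_pow, mul_one]

lemma ht_copies {m : ℕ} (g : MvPolynomial (Fin m) ℚ) (n : ℕ) :
    ht (up g * pr ℚ m n) ≤ ht g * (n + 3) ^ n := by
  obtain ⟨g₀, ⟨N, hN, h1⟩, h2⟩ := ht_spec g
  have h3 : IsRep (up g * pr ℚ m n) (rename Fin.succ g₀ * ∏ j ∈ Finset.range n,
      (X 0 - C (j : ℤ))) := by
    refine ⟨N, hN, ?_⟩
    unfold toQ at h1 ⊢
    rw [map_mul, map_rename, h1, map_mul (rename Fin.succ), rename_C, mul_assoc]
    congr 2
    unfold pr
    rw [map_prod]
    refine Finset.prod_congr rfl fun j _ => ?_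
    rw [map_sub, map_X, map_C]
    simp
  refine (ht_le h3).trans ((nrm_mul _ _).trans ?_)
  rw [← h2]
  refine Nat.mul_le_mul (nrm_up g₀) ((nrm_prod _ _).trans ?_)
  exact (Finset.prod_le_prod' fun j _ => nrm_X_sub _ j).trans (prod_le n)

lemma rep_prod {σ : Type} {ι : Type} (T : Finset ι) (F : ι → MvPolynomial σ ℚ)
    (F₀ : ι → MvPolynomial σ ℤ) (h : ∀ i, IsRep (F i) (F₀ i)) :
    IsRep (∏ i ∈ T, F i) (∏ i ∈ T, F₀ i) := by
  classical
  induction T using Finset.induction_on with
  | empty => exact ⟨1, one_ne_zero, by simp [toQ]⟩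
  | insert a T ha ih =>
    rw [Finset.prod_insert ha, Finset.prod_insert ha]
    obtain ⟨N, hN, h1⟩ := ih
    obtain ⟨M, hM, h2⟩ := h a
    refine ⟨M * N, mul_ne_zero hM hN, ?_⟩
    unfold toQ at h1 h2 ⊢
    rw [map_mul, h1, h2]
    push_cast
    rw [C_mul]
    ring

lemma ht_tr {m : ℕ} (p : MvPolynomial (Fin (m + 1)) ℚ) (n : ℕ) :
    ht (∏ j ∈ Finset.range n, tr ℚ m j p) ≤ (ht p) ^ n * ((n + 3) ^ n) ^ p.totalDegree := by
  obtain ⟨p₀, hp, h2⟩ := ht_spec p
  let q₀ : ℕ → Fin (m + 1) → MvPolynomial (Fin (m + 1)) ℤ := fun j i =>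
    if i = 0 then X i + C (j : ℤ) else X i
  have hq : ∀ j i, nrm (q₀ j i) ≤ j + 1 := by
    intro j i
    change nrm (if i = 0 then X i + C (j : ℤ) else X i) ≤ j + 1
    split_ifs
    · exact nrm_X_add i j
    · exact (nrm_X i).trans (by omega)
  have h3 : ∀ j, IsRep (tr ℚ m j p) (bind₁ (q₀ j) p₀) := by
    intro j
    obtain ⟨N, hN, h1⟩ := hp
    refine ⟨N, hN, ?_⟩
    unfold toQ at h1 ⊢
    rw [map_bind₁, h1, map_mul, tr_eq]
    have h4 : (fun i => map (algebraMap ℤ ℚ) (q₀ j i)) = trX ℚ m j := by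
      funext i
      change map (algebraMap ℤ ℚ) (if i = 0 then X i + C (j : ℤ) else X i) =
        if i = 0 then X i + C (j : ℚ) else X i
      split_ifs
      · rw [map_add, map_X, map_C]
        simp
      · rw [map_X]
    rw [h4]
    congr 1
    exact (bind₁ (trX ℚ m j)).commutes _
  refine (ht_le (rep_prod (Finset.range n) _ _ h3)).trans ((nrm_prod _ _).trans ?_)
  have h4 : ∀ j ∈ Finset.range n, nrm (bind₁ (q₀ j) p₀) ≤ ht p * (j + 1) ^ p.totalDegree := by
    intro j _
    refine (nrm_bind _ (by omega) (hq j) p₀).trans ?_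
    rw [h2]
    exact Nat.mul_le_mul_left _ (Nat.pow_le_pow_right (by omega) (rep_deg hp))
  refine (Finset.prod_le_prod' h4).trans ?_
  rw [Finset.prod_mul_distrib, Finset.prod_const, Finset.card_range, Finset.prod_pow]
  exact Nat.mul_le_mul_left _ (Nat.pow_le_pow_left (prod_le n) _)

lemma ht_graph {m : ℕ} (F : MvPolynomial (Fin m) ℚ) : ∃ a : ℚ, a ≠ 0 ∧
    ht (X 0 * up (C a * F) - 1 : MvPolynomial (Fin (m + 1)) ℚ) ≤ ht F + 1 := by
  obtain ⟨F₀, ⟨N, hN, h1⟩, h2⟩ := ht_spec F
  refine ⟨N, by exact_mod_cast hN, ?_⟩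
  have h3 : IsRep (X 0 * up (C (N : ℚ) * F) - 1 : MvPolynomial (Fin (m + 1)) ℚ)
      (X 0 * rename Fin.succ F₀ - 1) := by
    refine ⟨1, one_ne_zero, ?_⟩
    unfold toQ at h1 ⊢
    rw [map_sub, map_mul, map_X, map_rename, h1, map_one, Int.cast_one, C_1, one_mul]
  refine (ht_le h3).trans ?_
  rw [sub_eq_add_neg]
  refine (nrm_add _ _).trans ?_
  refine add_le_add ?_ ((nrm_neg _).trans nrm_one)
  refine (nrm_mul _ _).trans ?_
  rw [← h2]
  calc _ ≤ 1 * nrm F₀ := Nat.mul_le_mul (nrm_X _) (nrm_up F₀)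
    _ = nrm F₀ := one_mul _

/-- The size with heights. -/
theorem size_ht : Size szh where
  nonneg m F := add_nonneg (Nat.cast_nonneg _) (ell_nonneg (Real.log_natCast_nonneg _))
  copies := by
    refine ⟨2, by norm_num, fun m g n => ?_⟩
    unfold szh
    have h1 : ((up g * pr ℚ m n).totalDegree : ℝ) ≤ g.totalDegree + n := by
      exact_mod_cast deg_copies g n
    have h2 : Real.log (ht (up g * pr ℚ m n)) ≤ Real.log (ht g) + n * Real.log (n + 3) := by
      refine (log_le_of_le_mul (ht_copies g n)).trans (le_of_eq ?_)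
      push_cast
      rw [Real.log_pow]
    have h3 : ell (Real.log (ht (up g * pr ℚ m n))) ≤ ell (Real.log (ht g)) + n := by
      have h4 : (0 : ℝ) ≤ n * Real.log (n + 3) :=
        mul_nonneg (Nat.cast_nonneg _) (zero_le_one.trans (one_le_log (Nat.cast_nonneg n)))
      refine (ell_mono (Real.log_natCast_nonneg _) h2).trans ?_
      refine (ell_add (Real.log_natCast_nonneg _) h4).trans ?_
      linarith [ell_nlog n]
    linarith
  trans m p := by
    refine ⟨2 * p.totalDegree + Real.log (ht p), add_nonneg (by positivity)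
      (Real.log_natCast_nonneg _), fun n => ?_⟩
    unfold szh
    have hd : (0 : ℝ) ≤ p.totalDegree := Nat.cast_nonneg _
    have hl : 0 ≤ Real.log (ht p) := Real.log_natCast_nonneg _
    have hn : (0 : ℝ) ≤ n := Nat.cast_nonneg _
    have h0 : (0 : ℝ) ≤ n * Real.log (n + 3) :=
      mul_nonneg hn (zero_le_one.trans (one_le_log hn))
    have h1 : ((∏ j ∈ Finset.range n, tr ℚ m j p).totalDegree : ℝ) ≤ n * p.totalDegree := by
      exact_mod_cast deg_prod_tr ℚ m n p
    have h2 : Real.log (ht (∏ j ∈ Finset.range n, tr ℚ m j p)) ≤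
        n * Real.log (ht p) + p.totalDegree * (n * Real.log (n + 3)) := by
      refine (log_le_of_le_mul (ht_tr p n)).trans (le_of_eq ?_)
      push_cast
      rw [Real.log_pow, Real.log_pow, Real.log_pow]
    have h3 : ell (Real.log (ht (∏ j ∈ Finset.range n, tr ℚ m j p))) ≤
        n * Real.log (ht p) + p.totalDegree * n := by
      refine (ell_mono (Real.log_natCast_nonneg _) h2).trans ?_
      refine (ell_add (mul_nonneg hn hl) (mul_nonneg hd h0)).trans ?_
      refine add_le_add (ell_le (mul_nonneg hn hl)) ?_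
      refine (ell_nmul h0 _).trans ?_
      exact mul_le_mul_of_nonneg_left (ell_nlog n) hd
    nlinarith
  graph := by
    refine ⟨2, by norm_num, fun m F => ?_⟩
    obtain ⟨a, ha, h1⟩ := ht_graph F
    refine ⟨a, ha, ?_⟩
    unfold szh
    have h2 : ((X 0 * up (C a * F) - 1 : MvPolynomial (Fin (m + 1)) ℚ).totalDegree : ℝ) ≤
        F.totalDegree + 1 := by
      have h3 : (C a * F).totalDegree ≤ F.totalDegree := by
        refine (totalDegree_mul _ _).trans ?_
        rw [totalDegree_C, zero_add]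
      exact_mod_cast (deg_graph (C a * F)).trans (Nat.add_le_add_right h3 1)
    have h3 : Real.log (ht (X 0 * up (C a * F) - 1 : MvPolynomial (Fin (m + 1)) ℚ)) ≤
        Real.log (ht F) + 1 := by
      rcases Nat.eq_zero_or_pos (ht F) with h4 | h4
      · rw [h4] at h1 ⊢
        have h5 : ht (X 0 * up (C a * F) - 1 : MvPolynomial (Fin (m + 1)) ℚ) ≤ 1 * 1 := by omega
        have h6 := log_le_of_le_mul h5
        simp only [Nat.cast_one, Real.log_one] at h6
        simp only [Nat.cast_zero, Real.log_zero]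
        linarith
      · have h5 : ht (X 0 * up (C a * F) - 1 : MvPolynomial (Fin (m + 1)) ℚ) ≤ ht F * 2 := by omega
        refine (log_le_of_le_mul h5).trans ?_
        have h6 : Real.log ((2 : ℕ) : ℝ) ≤ 1 := by
          push_cast
          have := Real.log_two_lt_d9
          linarith
        linarith
    have h4 : ell (Real.log (ht (X 0 * up (C a * F) - 1 : MvPolynomial (Fin (m + 1)) ℚ))) ≤
        ell (Real.log (ht F)) + 1 := by
      refine (ell_mono (Real.log_natCast_nonneg _) h3).trans ?_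
      refine (ell_add (Real.log_natCast_nonneg _) zero_le_one).trans ?_
      linarith [ell_le (x := 1) zero_le_one]
    linarith

end heights

end Pool.Agent.Helper24.KE
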