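import Pool.Agent.Helper24.KE.HoldsC
import Pool.Agent.Helper24.KE.Sz

/-!
# Error terms: motives
-/

set_option autoImplicit false
set_option linter.unusedSectionVars false

open CategoryTheory Limits AlgebraicGeometry MvPolynomial Pool.Agent.Y116.UV
  Pool.Agent.Q282.UM Pool.Agent.Q282.UK Pool.Agent.Helper62.EC Pool.Agent.Helper24.KD

open Pool.Agent.Helper24.KZ hiding fL fL_mult ob_iff holds_iff euler_germ fL_zpow

namespace Pool.Agent.Helper24.KE

universe v u

section formulas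

variable {k : Type} [Field k] {C : Type u} [Category.{v} C] [Preadditive C]

/-- The numerical formula for a complex `K` of motives with the error `c`: the spaces `H^n(cyc K)` have
finite dimension, almost all of them are zero, and for a bounded complex `L` isomorphic to `K` in the
homotopy category the product `∏ L(L^i, s)^((-1)^i)` has a meromorphic continuation to a neighbourhood
of `[0, ∞)`, and `c` is the difference of the Euler characteristic `∑ (-1)^n dim H^n(cyc K)` and the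
order of the continuation at `0`. -/
def FormulaC (D : MotivesL k C) (K : HK C) (c : ℤ) : Prop :=
  (∀ n, Module.Finite ℚ (Hcyc D n K)) ∧
  (Function.support fun n => Module.finrank ℚ (Hcyc D n K)).Finite ∧
  ∃ (L : CochainComplex C ℤ) (a b : ℤ) (F : ℂ → ℂ), (∀ i, (i < a ∨ b < i) → IsZero (L.X i)) ∧
    Nonempty (K ≅ toHK L) ∧
    IsContinuation (fun s => ∏ i ∈ Finset.Icc a b, D.L (L.X i) s ^ ((i.negOnePow : ℤˣ) : ℤ)) F ∧
    meromorphicOrderAt F 0 =
      (((∑ᶠ n : ℤ, ((n.negOnePow : ℤˣ) : ℤ) * (Module.finrank ℚ (Hcyc D n K) : ℤ)) - c : ℤ) :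
        WithTop ℤ)

lemma formulaC_zero (D : MotivesL k C) (K : HK C) : FormulaC D K 0 ↔ Formula D K := by
  unfold FormulaC Formula
  simp only [sub_zero]

variable [HasZeroObject C] [HasBinaryBiproducts C] {D : MotivesL k C} (hD : IsEuler D)

lemma holdsC_iff (K : HK C) (c : ℤ) : HoldsC D.cyc (fL hD) Gam K c ↔ FormulaC D K c := by
  unfold FormulaC
  rw [alt_hcyc, ← and_assoc, ← rankOK_iff]
  constructor
  · rintro ⟨h1, g, ⟨L, ⟨a, b, hz⟩, -, h2, rfl⟩, F, h3, h4, h5⟩
    refine ⟨h1, L, a, b, F, hz, h2, ⟨?_, h4⟩, h5⟩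
    rw [← germ_eq, h3]
    exact euler_germ hD hz
  · rintro ⟨h1, L, a, b, F, hz, h2, ⟨h3, h4⟩, h5⟩
    refine ⟨h1, _, ⟨L, ⟨a, b, hz⟩, fun _ => trivial, h2, rfl⟩, F, ?_, h4, h5⟩
    change (F : Gm) = ((euler (fL hD) L : Gmˣ) : Gm)
    rw [euler_germ hD hz, germ_eq]
    exact h3

end formulas

section exact

variable {C : Type u} [Category.{v} C] [Preadditive C] [HasBinaryBiproducts C] [HasZeroObject C]
  [HasFiniteBiproducts C] {A : Type*} [CommGroup A] {F : C ⥤ ModuleCat.{0} ℚ} [F.Additive]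
  {f : C → A} {Γ : Subgroup (A × Multiplicative ℤ)} {k : Type} [Field k] {D : Weights k C}
  (hf : Mult (fun _ : C => True) f) (hD : IsWeightComplex D)
  (hz : ∀ Y : Sch k, IsSmoothProjective Y → topologicalKrullDim Y.left ≤ (0 : ℕ) →
    ∀ n : ℤ, Ob F f Γ ((D.tw n).obj (D.h Y)))

include hf hD hz

/-- The exact formula for the principal open sets. -/
lemma exact_U {n : ℤ} {d : ℕ} (h : ∀ Y : Sch k, IsSmoothProjective Y →
    topologicalKrullDim Y.left ≤ d → Ob F f Γ ((D.tw n).obj (D.h Y)))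
    (g : MvPolynomial (Fin (d + 1)) k) : At F f Γ D n (U g) := by
  refine ring_open (at_cls hf hD n) g ?_ (at_space hf hD hz n _)
  by_cases hg : Ideal.span {g} = ⊥
  · rw [hg]
    exact Pool.Agent.Helper62.EC.iso_alg (at_cls hf hD n)
      (AlgEquiv.quotientBot k _).symm (at_space hf hD hz n _)
  · refine gen hf hD h _ (ft_aff True) ?_
    rw [Pool.Agent.Z125.UN.topDim_aff]
    exact Pool.Agent.Z125.UN.dim_quot _ hg

lemma space_zero (n : ℤ) (m : ℕ) : AtC F f Γ D n (aff k (MvPolynomial (Fin m) k)) 0 :=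
  atC_zero.mpr (at_space hf hD hz n m)

end exact

section integers

variable {Q : Sch ℚ → ℤ → Prop} (hQ : Dfc True Q)

include hQ

/-- From polynomials with integer coefficients to rational coefficients. -/
lemma of_int {m κ : ℕ} {R : ℤ → ℝ → Prop} (hR : ∀ c x y, x ≤ y → R c x → R c y) {ε : ℝ}
    (hε : 0 < ε) {B : ℝ}
    (h : ∀ F : MvPolynomial (Fin m) ℤ, ∃ c : ℤ, Q (U (toQ F)) c ∧
      R c (ε * ((F.totalDegree : ℝ) + ell (Real.log (nrm F))) ^ κ + B))
    (F : MvPolynomial (Fin m) ℚ) : ∃ c : ℤ, Q (U F) c ∧ R c (ε * szh m F ^ κ + B) := by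
  obtain ⟨F₀, h1, h2⟩ := ht_spec F
  obtain ⟨c, h3, h4⟩ := h F₀
  have h5 := rep_deg h1
  obtain ⟨N, hN, h6⟩ := h1
  rw [h6] at h3
  obtain ⟨e⟩ := scalar_equiv F (a := (N : ℚ)) (by exact_mod_cast hN)
  refine ⟨c, isoQ hQ e h3, hR _ _ _ ?_ h4⟩
  unfold szh
  rw [h2]
  have h7 : (F₀.totalDegree : ℝ) ≤ F.totalDegree := by exact_mod_cast h5
  have h8 : 0 ≤ ell (Real.log (ht F)) := ell_nonneg (Real.log_natCast_nonneg _)
  have h9 : ((F₀.totalDegree : ℝ) + ell (Real.log (ht F))) ^ κ ≤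
      ((F.totalDegree : ℝ) + ell (Real.log (ht F))) ^ κ :=
    pow_le_pow_left₀ (by positivity) (by linarith) κ
  have := mul_le_mul_of_nonneg_left h9 hε.le
  linarith

end integers

end Pool.Agent.Helper24.KE
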