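import Pool.Agent.Helper24.KE.Tr
import Mathlib.RingTheory.Localization.Away.AdjoinRoot

/-!
# One-sided bounds for the defects of principal open subsets of affine spaces
-/

set_option autoImplicit false

open CategoryTheory AlgebraicGeometry MvPolynomial Pool.Agent.Y116.UV Pool.Agent.Helper62.EC

namespace Pool.Agent.Helper24.KE

section

variable {k : Type} [Field k]

/-- The open subset `F ≠ 0` of the affine space. -/
noncomputable abbrev U {k : Type} [Field k] {m : ℕ} (F : MvPolynomial (Fin m) k) : Sch k :=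
  aff k (Localization.Away F)

/-- The graph of `1 / F`. -/
lemma graph_equiv {m : ℕ} (F : MvPolynomial (Fin m) k) :
    Nonempty ((MvPolynomial (Fin (m + 1)) k ⧸ Ideal.span {X 0 * up F - 1}) ≃ₐ[k]
      Localization.Away F) := by
  have h1 : Ideal.span {(Polynomial.C F * Polynomial.X - 1 : Polynomial (MvPolynomial (Fin m) k))} =
      Ideal.map (finSuccEquiv k m : MvPolynomial (Fin (m + 1)) k →+* _)
        (Ideal.span {X 0 * up F - 1}) := by
    rw [Ideal.map_span, Set.image_singleton]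
    congr 2
    change _ = finSuccEquiv k m (X 0 * up F - 1)
    rw [map_sub, map_mul, finSuccEquiv_X_zero, finSucc_up, map_one, mul_comm]
  let e1 := Ideal.quotientEquivAlg (Ideal.span {X 0 * up F - 1})
    (Ideal.span {(Polynomial.C F * Polynomial.X - 1 : Polynomial (MvPolynomial (Fin m) k))})
    (finSuccEquiv k m) h1
  let e2 : (Polynomial (MvPolynomial (Fin m) k) ⧸
      Ideal.span {(Polynomial.C F * Polynomial.X - 1 : Polynomial (MvPolynomial (Fin m) k))}) ≃ₐ[k]
        Localization.Away F := (Localization.awayEquivAdjoin F).symm.restrictScalars k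
  exact ⟨e1.trans e2⟩

/-- Scalars do not change the open subset. -/
lemma scalar_equiv {m : ℕ} (F : MvPolynomial (Fin m) k) {a : k} (ha : a ≠ 0) :
    Nonempty (Localization.Away (C a * F) ≃ₐ[k] Localization.Away F) := by
  have h1 : IsLocalization.Away (C a * F) (Localization.Away F) := by
    refine IsLocalization.Away.of_associated (r := F) ?_
    exact ⟨(isUnit_iff_ne_zero.mpr ha).map C |>.unit, by
      rw [IsUnit.unit_spec, mul_comm]⟩
  exact ⟨(IsLocalization.algEquiv (Submonoid.powers (C a * F)) (Localization.Away (C a * F))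
    (Localization.Away F)).restrictScalars k⟩

end

variable {k : Type} [Field k] {sep : Prop} {Q : Sch k → ℤ → Prop} (hQ : Dfc sep Q)

include hQ

/-- The negative of the defect. -/
theorem Dfc.neg : Dfc sep fun X c => Q X (-c) where
  iso hX e h := hQ.iso hX e h
  total i j a b hX ht h1 h2 := by
    have h3 := hQ.total i j hX ht h1 h2
    rwa [← neg_add] at h3
  opened i j a b hX ht h1 h2 := by
    have h3 := hQ.opened i j hX ht h1 h2
    rwa [show -b - -a = -(b - a) by ring] at h3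
  closed i j a b hX ht h1 h2 := by
    have h3 := hQ.closed i j hX ht h1 h2
    rwa [show -a - -b = -(a - b) by ring] at h3
  uniq h1 h2 := neg_injective (hQ.uniq h1 h2)

variable (hs : ∀ m : ℕ, Q (aff k (MvPolynomial (Fin m) k)) 0)

include hs

lemma U_of_V {m : ℕ} {F : MvPolynomial (Fin m) k} {c : ℤ} (h : Q (V F) c) : Q (U F) (-c) := by
  have h1 := openQ hQ F h (hs m)
  rwa [zero_sub] at h1

lemma V_of_U {m : ℕ} {F : MvPolynomial (Fin m) k} {c : ℤ} (h : Q (U F) c) : Q (V F) (-c) := by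
  have h1 := closedQ hQ F (hs m) h
  rwa [zero_sub] at h1

omit hQ hs in
/-- The defects of the open sets `F ≠ 0` are at most `o(sz(F)^κ)`. -/
def Upper (sz : ∀ m, MvPolynomial (Fin m) k → ℝ) (Q : Sch k → ℤ → Prop) (m κ : ℕ) : Prop :=
  ∀ ε : ℝ, 0 < ε → ∃ B : ℝ, ∀ F : MvPolynomial (Fin m) k, ∃ c : ℤ, Q (U F) c ∧
    (c : ℝ) ≤ ε * sz m F ^ κ + B

omit hQ hs in
/-- The defects of the open sets `F ≠ 0` are `o(sz(F)^κ)`. -/
def Both (sz : ∀ m, MvPolynomial (Fin m) k → ℝ) (Q : Sch k → ℤ → Prop) (m κ : ℕ) : Prop :=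
  ∀ ε : ℝ, 0 < ε → ∃ B : ℝ, ∀ F : MvPolynomial (Fin m) k, ∃ c : ℤ, Q (U F) c ∧
    |(c : ℝ)| ≤ ε * sz m F ^ κ + B

variable {sz : ∀ m, MvPolynomial (Fin m) k → ℝ}

lemma both_small {m κ : ℕ} (h : Both sz Q m κ) : Small sz Q m κ := by
  intro ε hε
  obtain ⟨B, hB⟩ := h ε hε
  refine ⟨B, fun F => ?_⟩
  obtain ⟨c, h1, h2⟩ := hB F
  refine ⟨-c, V_of_U hQ hs h1, ?_⟩
  push_cast
  rwa [abs_neg]

variable (hz : Size sz)

include hz

omit hQ hs in
lemma Upper.succ {m κ : ℕ} (h : Upper sz Q m κ) : Upper sz Q m (κ + 1) := by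
  intro ε hε
  obtain ⟨B, hB⟩ := h ε hε
  refine ⟨B + ε, fun F => ?_⟩
  obtain ⟨c, h1, h2⟩ := hB F
  refine ⟨c, h1, h2.trans ?_⟩
  have h3 : sz m F ^ κ ≤ sz m F ^ (κ + 1) + 1 := by
    have h4 := hz.nonneg m F
    rcases le_or_gt 1 (sz m F) with h5 | h5
    · have h6 : sz m F ^ κ ≤ sz m F ^ (κ + 1) := pow_le_pow_right₀ h5 (Nat.le_succ κ)
      linarith
    · have h6 := pow_le_one₀ (n := κ) h4 h5.le
      have h7 := pow_nonneg h4 (κ + 1)
      linarith
  have h4 := mul_le_mul_of_nonneg_left h3 hε.le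
  linarith

/-- **Two one-sided bounds give a two-sided bound.** -/
theorem two_sided {m κ : ℕ} (h0 : Upper sz Q m κ) (h1 : Upper sz Q (m + 1) κ) :
    Small sz Q m κ := by
  obtain ⟨K, hK, hK2⟩ := hz.graph
  intro ε hε
  obtain ⟨B, hB⟩ := h0 ε hε
  obtain ⟨B', hB'⟩ := h1 (ε / 2 ^ κ) (by positivity)
  refine ⟨|B| + |B'| + ε * K ^ κ, fun F => ?_⟩
  obtain ⟨c, h2, h3⟩ := hB F
  refine ⟨-c, V_of_U hQ hs h2, ?_⟩
  obtain ⟨a, ha, h4⟩ := hK2 m F
  obtain ⟨c', h5, h6⟩ := hB' (X 0 * up (C a * F) - 1)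
  have h7 : c' = -c := by
    refine hQ.uniq h5 (U_of_V hQ hs ?_)
    obtain ⟨e1⟩ := graph_equiv (C a * F)
    obtain ⟨e2⟩ := scalar_equiv F ha
    exact isoQ hQ (e1.trans e2).symm h2
  rw [h7] at h6
  push_cast at h6 ⊢
  rw [abs_neg, abs_le]
  have hF := hz.nonneg m F
  have h8 : sz (m + 1) (X 0 * up (C a * F) - 1) ^ κ ≤ 2 ^ κ * (sz m F ^ κ + K ^ κ) := by
    refine (pow_le_pow_left₀ (hz.nonneg _ _) h4 κ).trans ?_
    refine (add_pow_le hF hK κ).trans ?_
    refine mul_le_mul_of_nonneg_right ?_ (by positivity)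
    exact pow_le_pow_right₀ (by norm_num) (Nat.sub_le _ _)
  have h9 : ε / 2 ^ κ * sz (m + 1) (X 0 * up (C a * F) - 1) ^ κ ≤ ε * sz m F ^ κ + ε * K ^ κ := by
    refine (mul_le_mul_of_nonneg_left h8 (by positivity)).trans (le_of_eq ?_)
    have : (2 : ℝ) ^ κ ≠ 0 := by positivity
    rw [← mul_assoc, div_mul_cancel₀ _ this, mul_add]
  have h10 : 0 ≤ ε * K ^ κ := by positivity
  constructor <;> linarith [le_abs_self B, le_abs_self B', abs_nonneg B, abs_nonneg B']

variable [CharZero k]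

/-- The defects of all schemes, from two-sided bounds. -/
theorem zero_of_both [PerfectField k] {m κ : ℕ} (h : Both sz Q (m + (κ + 1)) (κ + 1)) (X : Sch k)
    (hX : FT sep X) (hm : topologicalKrullDim X.left ≤ m) : Q X 0 :=
  main_zero hQ hs hz (both_small hQ hs h) X hX hm

/-- The defects of all schemes, from one-sided bounds. -/
theorem zero_of_upper [PerfectField k] {m κ : ℕ} (h0 : Upper sz Q (m + (κ + 1)) (κ + 1))
    (h1 : Upper sz Q (m + (κ + 1) + 1) (κ + 1)) (X : Sch k)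
    (hX : FT sep X) (hm : topologicalKrullDim X.left ≤ m) : Q X 0 :=
  main_zero hQ hs hz (two_sided hQ hs hz h0 h1) X hX hm

/-- All dimensions. -/
theorem zero_of_all [PerfectField k]
    (h : ∀ s : ℕ, ∃ r₀ : ℕ, ∀ r, r₀ ≤ r → Upper sz Q r (r - s)) (m : ℕ) (X : Sch k)
    (hX : FT sep X) (hm : topologicalKrullDim X.left ≤ m) : Q X 0 := by
  obtain ⟨r₀, hr⟩ := h (m + 1)
  have h0 := hr (m + (r₀ + 1)) (by omega)
  have h1 := hr (m + (r₀ + 1) + 1) (by omega)
  rw [show m + (r₀ + 1) - (m + 1) = r₀ by omega] at h0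
  rw [show m + (r₀ + 1) + 1 - (m + 1) = r₀ + 1 by omega] at h1
  exact zero_of_upper hQ hs hz (h0.succ hz) h1 X hX hm

end Pool.Agent.Helper24.KE
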