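import Pool.Agent.Helper24.KD.Base
import Pool.Agent.Helper24.KE.One

/-!
# The errors in the numerical formulas
-/

set_option autoImplicit false
set_option linter.unusedSectionVars false

open CategoryTheory Limits AlgebraicGeometry MvPolynomial Pool.Agent.Y116.UV
  Pool.Agent.Q282.UM Pool.Agent.Q282.UK Pool.Agent.Helper24.KZ Pool.Agent.Helper62.EC
  Pool.Agent.Helper24.KD

namespace Pool.Agent.Helper24.KE

universe v u

section defs

variable {C : Type u} [Category.{v} C] [Preadditive C] {A : Type*} [CommGroup A]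
  (F : C ⥤ ModuleCat.{0} ℚ) (f : C → A) (Γ : Subgroup (A × Multiplicative ℤ))

/-- The formula for the complex `K` with the error `c`. -/
def HoldsC [HasBinaryBiproducts C] [HasZeroObject C] [F.Additive] (K : HK C) (c : ℤ) : Prop :=
  RankOK F K ∧ ∃ g, Rep (fun _ => True) f K g ∧
    (g, Multiplicative.ofAdd (alt (hdim F K) - c)) ∈ Γ

end defs

variable {C : Type u} [Category.{v} C] [Preadditive C] [HasBinaryBiproducts C] [HasZeroObject C]
  {A : Type*} [CommGroup A] {F : C ⥤ ModuleCat.{0} ℚ} [F.Additive] {f : C → A}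
  {Γ : Subgroup (A × Multiplicative ℤ)}

lemma holdsC_zero {K : HK C} : HoldsC F f Γ K 0 ↔ Holds F f Γ K := by
  unfold HoldsC Holds
  simp only [sub_zero]

lemma HoldsC.iso {K L : HK C} {c : ℤ} (e : Nonempty (K ≅ L)) (h : HoldsC F f Γ K c) :
    HoldsC F f Γ L c := by
  obtain ⟨h1, g, h2, h3⟩ := h
  refine ⟨h1.iso e, g, h2.iso e, ?_⟩
  rw [← hdim_iso e]
  exact h3

lemma HoldsC.shift {K : HK C} {c : ℤ} (h : HoldsC F f Γ K c) (n : ℤ) :
    HoldsC F f Γ (K⟦n⟧) (((n.negOnePow : ℤˣ) : ℤ) * c) := by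
  obtain ⟨h1, g, h2, h3⟩ := h
  refine ⟨h1.shift n, _, h2.shift n, ?_⟩
  rw [alt_hdim_shift]
  have h4 := Γ.zpow_mem h3 ((n.negOnePow : ℤˣ) : ℤ)
  have h5 : Multiplicative.ofAdd (((n.negOnePow : ℤˣ) : ℤ) * alt (hdim F K) -
      ((n.negOnePow : ℤˣ) : ℤ) * c) =
      (Multiplicative.ofAdd (alt (hdim F K) - c)) ^ ((n.negOnePow : ℤˣ) : ℤ) := by
    rw [← ofAdd_zsmul, smul_eq_mul, mul_sub]
  rw [h5]
  exact h4

section

variable (hf : Mult (fun _ : C => True) f)

include hf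

theorem HoldsC.mid {T : Pretriangulated.Triangle (HK C)}
    (hT : T ∈ Pretriangulated.distinguishedTriangles (C := HK C)) {a b : ℤ}
    (h1 : HoldsC F f Γ T.obj₁ a) (h3 : HoldsC F f Γ T.obj₃ b) : HoldsC F f Γ T.obj₂ (a + b) := by
  obtain ⟨a1, g₁, a2, a3⟩ := h1
  obtain ⟨b1, g₃, b2, b3⟩ := h3
  have h2 := RankOK.mid hT a1 b1
  refine ⟨h2, _, Rep.mid hf hT a2 b2, ?_⟩
  rw [alt_triangle hT a1 h2 b1]
  have h4 := Γ.mul_mem a3 b3
  have h5 : Multiplicative.ofAdd (alt (hdim F T.obj₁) + alt (hdim F T.obj₃) - (a + b)) =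
      Multiplicative.ofAdd (alt (hdim F T.obj₁) - a) *
        Multiplicative.ofAdd (alt (hdim F T.obj₃) - b) := by
    rw [← ofAdd_add]
    congr 1
    ring
  rw [h5]
  exact h4

theorem HoldsC.third {T : Pretriangulated.Triangle (HK C)}
    (hT : T ∈ Pretriangulated.distinguishedTriangles (C := HK C)) {a b : ℤ}
    (h1 : HoldsC F f Γ T.obj₁ a) (h2 : HoldsC F f Γ T.obj₂ b) : HoldsC F f Γ T.obj₃ (b - a) := by
  have h3 := HoldsC.mid hf (Pretriangulated.rot_of_distTriang _ hT) h2 (h1.shift 1)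
  have h4 : b + (((1 : ℤ).negOnePow : ℤˣ) : ℤ) * a = b - a := by
    rw [Int.negOnePow_one, Units.val_neg, Units.val_one]
    ring
  rw [h4] at h3
  exact h3

theorem HoldsC.first {T : Pretriangulated.Triangle (HK C)}
    (hT : T ∈ Pretriangulated.distinguishedTriangles (C := HK C)) {a b : ℤ}
    (h2 : HoldsC F f Γ T.obj₂ a) (h3 : HoldsC F f Γ T.obj₃ b) : HoldsC F f Γ T.obj₁ (a - b) := by
  have h4 := HoldsC.mid hf (Pretriangulated.inv_rot_of_distTriang _ hT) (h3.shift (-1)) h2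
  have h5 : (((-1 : ℤ).negOnePow : ℤˣ) : ℤ) = -1 := by decide
  rw [h5, show -1 * b + a = a - b by ring] at h4
  exact h4

/-- The error is unique. -/
theorem HoldsC.uniq (hΓ : ∀ n : ℤ, ((1 : A), Multiplicative.ofAdd n) ∈ Γ → n = 0) {K : HK C}
    {a b : ℤ} (h1 : HoldsC F f Γ K a) (h2 : HoldsC F f Γ K b) : a = b := by
  obtain ⟨a1, g, a2, a3⟩ := h1
  obtain ⟨b1, g', b2, b3⟩ := h2
  rw [Rep.unique hf b2 a2] at b3
  have h3 := Γ.mul_mem a3 (Γ.inv_mem b3)
  have h4 : ((g, Multiplicative.ofAdd (alt (hdim F K) - a)) *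
      (g, Multiplicative.ofAdd (alt (hdim F K) - b))⁻¹ : A × Multiplicative ℤ) =
      (1, Multiplicative.ofAdd (b - a)) := by
    apply Prod.ext
    · exact mul_inv_cancel g
    · change Multiplicative.ofAdd (alt (hdim F K) - a) *
        (Multiplicative.ofAdd (alt (hdim F K) - b))⁻¹ = Multiplicative.ofAdd (b - a)
      rw [← ofAdd_neg, ← ofAdd_add]
      congr 1
      ring
  rw [h4] at h3
  have := hΓ _ h3
  omega

end

section schemes

variable [HasFiniteBiproducts C] {k : Type} [Field k] {D : Weights k C}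

variable (F f Γ D) in
/-- The error for the twist by `n` of the weight complex of `X`. -/
def AtC (n : ℤ) (X : Sch k) (c : ℤ) : Prop := HoldsC F f Γ (onHK (D.tw n) (D.W X)) c

lemma atC_zero {n : ℤ} {X : Sch k} : AtC F f Γ D n X 0 ↔ At F f Γ D n X := holdsC_zero

variable (hf : Mult (fun _ : C => True) f) (hD : IsWeightComplex D)
  (hΓ : ∀ n : ℤ, ((1 : A), Multiplicative.ofAdd n) ∈ Γ → n = 0)

include hf hD hΓ

/-- The errors are additive. -/
theorem atC_dfc (n : ℤ) : Dfc True fun X : Sch k => AtC F f Γ D n X where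
  iso hX e h := by
    obtain ⟨e⟩ := hD.iso hX e
    exact h.iso ⟨((D.tw n).mapHomotopyCategory (ComplexShape.up ℤ)).mapIso e⟩
  total i j a b h ht hZ hU := by
    obtain ⟨x, y, d, hT⟩ := onHK_triangle (D.tw n) (hD.triangle i j h ht)
    rw [add_comm]
    exact HoldsC.mid hf hT hU hZ
  opened i j a b h ht hZ hX := by
    obtain ⟨x, y, d, hT⟩ := onHK_triangle (D.tw n) (hD.triangle i j h ht)
    exact HoldsC.first hf hT hX hZ
  closed i j a b h ht hX hU := by
    obtain ⟨x, y, d, hT⟩ := onHK_triangle (D.tw n) (hD.triangle i j h ht)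
    exact HoldsC.third hf hT hU hX
  uniq h1 h2 := HoldsC.uniq hf hΓ h1 h2

end schemes

/-! ### The order of a meromorphic continuation -/

/-- A function which is zero in a half plane and meromorphic along `[0, ∞)` is zero near `0`. -/
lemma order_top {h : ℂ → ℂ} (hm : ∀ x : ℝ, 0 ≤ x → MeromorphicAt h x) {σ : ℝ}
    (h0 : ∀ s : ℂ, σ < s.re → h s = 0) : meromorphicOrderAt h 0 = ⊤ := by
  let Z : Set ℂ := (fun x : ℝ => (x : ℂ)) '' Set.Ici 0
  have hZ : IsConnected Z := (isConnected_Ici).image _ Complex.continuous_ofReal.continuousOn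
  have hmZ : MeromorphicOn h Z := by
    rintro _ ⟨x, hx, rfl⟩
    exact hm x hx
  have hx : ((max σ 0 + 1 : ℝ) : ℂ) ∈ Z := ⟨_, by
    change 0 ≤ max σ 0 + 1
    linarith [le_max_right σ 0], rfl⟩
  have h1 : meromorphicOrderAt h ((max σ 0 + 1 : ℝ) : ℂ) = ⊤ := by
    rw [meromorphicOrderAt_eq_top_iff]
    apply Filter.Eventually.filter_mono nhdsWithin_le_nhds
    have h2 : {s : ℂ | σ < s.re} ∈ nhds ((max σ 0 + 1 : ℝ) : ℂ) := by
      refine (isOpen_lt continuous_const Complex.continuous_re).mem_nhds ?_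
      change σ < ((max σ 0 + 1 : ℝ) : ℂ).re
      rw [Complex.ofReal_re]
      linarith [le_max_left σ 0]
    filter_upwards [h2] with s hs using h0 s hs
  have h00 : (0 : ℂ) ∈ Z := ⟨0, le_refl (0 : ℝ), by simp⟩
  by_contra hcon
  have h3 := (hmZ.exists_meromorphicOrderAt_ne_top_iff_forall hZ).mp ⟨⟨0, h00⟩, hcon⟩
  exact h3 ⟨_, hx⟩ h1

lemma gam_uniq (n : ℤ) (h : ((1 : Gmˣ), Multiplicative.ofAdd n) ∈ Gam) : n = 0 := by
  obtain ⟨F, h1, h2, h3⟩ := h
  have h4 : ((F : Gm) = ((1 : ℂ → ℂ) : Gm)) := h1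
  rw [germ_eq] at h4
  obtain ⟨σ, h4⟩ := h4
  have h5 : meromorphicOrderAt (F - 1) 0 = ⊤ := by
    refine order_top (σ := σ) (fun x hx => (h2 x hx).sub (MeromorphicAt.const 1 _)) fun s hs => ?_
    rw [Pi.sub_apply, h4 s hs, sub_self]
  rw [meromorphicOrderAt_eq_top_iff] at h5
  have h6 : F =ᶠ[nhdsWithin 0 {0}ᶜ] fun _ => (1 : ℂ) := by
    filter_upwards [h5] with s hs
    rw [Pi.sub_apply, sub_eq_zero] at hs
    exact hs
  rw [meromorphicOrderAt_congr h6, meromorphicOrderAt_const] at h3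
  simp only [one_ne_zero, if_false] at h3
  have h7 : ((0 : ℤ) : WithTop ℤ) = ((n : ℤ) : WithTop ℤ) := h3
  exact (WithTop.coe_injective h7).symm

end Pool.Agent.Helper24.KE
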