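import Pool.Agent.Helper24.KE.Q

/-!
# Disjoint copies of hypersurfaces
-/

set_option autoImplicit false

open CategoryTheory AlgebraicGeometry MvPolynomial Pool.Agent.Y116.UV Pool.Agent.Helper62.EC

namespace Pool.Agent.Helper24.KE

section subst

variable {R : Type} [CommRing R] {A B : Type} [CommRing A] [CommRing B] [Algebra R A]
  [Algebra R B]

/-- Quotients and surjective maps. -/
lemma quot_surj (φ : A →ₐ[R] B) (hφ : Function.Surjective φ) {u : A}
    (hu : RingHom.ker φ = Ideal.span {u}) (F : A) :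
    Nonempty ((A ⧸ (Ideal.span {u} ⊔ Ideal.span {F})) ≃ₐ[R] (B ⧸ Ideal.span {φ F})) := by
  let ψ : A →ₐ[R] (B ⧸ Ideal.span {φ F}) := (Ideal.Quotient.mkₐ R (Ideal.span {φ F})).comp φ
  have hψ : Function.Surjective ψ := (Ideal.Quotient.mkₐ_surjective R _).comp hφ
  have hk : RingHom.ker ψ = Ideal.span {u} ⊔ Ideal.span {F} := by
    have h1 : RingHom.ker ψ = Ideal.comap φ (Ideal.map φ (Ideal.span {F})) := by
      rw [Ideal.map_span, Set.image_singleton]
      ext x
      rw [RingHom.mem_ker, Ideal.mem_comap]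
      exact Ideal.Quotient.eq_zero_iff_mem
    rw [h1, Ideal.comap_map_of_surjective φ hφ, sup_comm, ← hu]
    rfl
  rw [← hk]
  exact ⟨Ideal.quotientKerAlgEquivOfSurjective hψ⟩

end subst

section poly

variable {k : Type} [Field k]

/-- The substitution `x_0 = a`. -/
noncomputable def sub0 (m : ℕ) (a : k) : MvPolynomial (Fin (m + 1)) k →ₐ[k] MvPolynomial (Fin m) k :=
  ((Polynomial.aeval (R := MvPolynomial (Fin m) k) (C a : MvPolynomial (Fin m) k)).restrictScalars
    k).comp (finSuccEquiv k m).toAlgHom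

/-- A polynomial in fewer variables. -/
noncomputable abbrev up {m : ℕ} (g : MvPolynomial (Fin m) k) : MvPolynomial (Fin (m + 1)) k :=
  rename Fin.succ g

lemma sub0_X (m : ℕ) (a : k) : sub0 m a (X 0) = C a := by
  change (Polynomial.aeval (C a : MvPolynomial (Fin m) k)) (finSuccEquiv k m (X 0)) = _
  rw [finSuccEquiv_X_zero, Polynomial.aeval_X]

lemma sub0_C (m : ℕ) (a b : k) : sub0 m a (C b) = C b := (sub0 m a).commutes b

lemma finSucc_up {m : ℕ} (g : MvPolynomial (Fin m) k) :
    finSuccEquiv k m (up g) = Polynomial.C g := by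
  have h : ((finSuccEquiv k m).toAlgHom.comp (rename Fin.succ)) =
      (Algebra.ofId (MvPolynomial (Fin m) k) (Polynomial (MvPolynomial (Fin m) k))).restrictScalars
        k := by
    apply MvPolynomial.algHom_ext
    intro i
    change finSuccEquiv k m (rename Fin.succ (X i)) = Polynomial.C (X i)
    rw [rename_X, finSuccEquiv_X_succ]
  exact DFunLike.congr_fun h g

lemma sub0_up {m : ℕ} (a : k) (g : MvPolynomial (Fin m) k) : sub0 m a (up g) = g := by
  change (Polynomial.aeval (C a : MvPolynomial (Fin m) k)) (finSuccEquiv k m (up g)) = _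
  rw [finSucc_up, Polynomial.aeval_C]
  rfl

lemma sub0_surj (m : ℕ) (a : k) : Function.Surjective (sub0 m a) := fun g => ⟨up g, sub0_up a g⟩

lemma ker_sub0 (m : ℕ) (a : k) : RingHom.ker (sub0 m a) = Ideal.span {X 0 - C a} := by
  ext F
  rw [RingHom.mem_ker, Ideal.mem_span_singleton]
  have h1 : sub0 m a F = 0 ↔ (Polynomial.X - Polynomial.C (C a : MvPolynomial (Fin m) k)) ∣
      finSuccEquiv k m F := by
    rw [Polynomial.dvd_iff_isRoot, Polynomial.IsRoot.def, ← Polynomial.coe_aeval_eq_eval]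
    rfl
  have h2 : finSuccEquiv k m (X 0 - C a) =
      Polynomial.X - Polynomial.C (C a : MvPolynomial (Fin m) k) := by
    rw [map_sub, finSuccEquiv_X_zero]
    congr 1
    exact (finSuccEquiv k m).commutes a
  rw [h1, ← h2]
  exact map_dvd_iff (finSuccEquiv k m)

/-- The product of the `x_0 - j` with `j < n`. -/
noncomputable def pr (k : Type) [Field k] (m n : ℕ) : MvPolynomial (Fin (m + 1)) k :=
  ∏ j ∈ Finset.range n, (X 0 - C (j : k))

lemma pr_succ (m n : ℕ) : pr k m (n + 1) = pr k m n * (X 0 - C (n : k)) := Finset.prod_range_succ _ _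

lemma sub0_pr [CharZero k] (m n : ℕ) : ∃ c : k, c ≠ 0 ∧ sub0 m (n : k) (pr k m n) = C c := by
  refine ⟨∏ j ∈ Finset.range n, ((n : k) - (j : k)), ?_, ?_⟩
  · rw [Finset.prod_ne_zero_iff]
    intro j hj h
    rw [sub_eq_zero, Nat.cast_inj] at h
    rw [Finset.mem_range] at hj
    omega
  · unfold pr
    rw [map_prod, map_prod]
    refine Finset.prod_congr rfl fun j _ => ?_
    rw [map_sub, sub0_X, sub0_C, ← C_sub]

end poly

variable {k : Type} [Field k] [CharZero k] {sep : Prop} {Q : Sch k → ℤ → Prop} (hQ : Dfc sep Q)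
  (hs : ∀ m : ℕ, Q (aff k (MvPolynomial (Fin m) k)) 0)

/-- The hypersurface `F = 0` in the affine space. -/
noncomputable abbrev V {k : Type} [Field k] {m : ℕ} (F : MvPolynomial (Fin m) k) : Sch k :=
  aff k (MvPolynomial (Fin m) k ⧸ Ideal.span {F})

include hQ hs

omit [CharZero k] in
lemma hyper_line (m : ℕ) (a : k) : Q (V (X 0 - C a : MvPolynomial (Fin (m + 1)) k)) 0 := by
  have e : (MvPolynomial (Fin (m + 1)) k ⧸ RingHom.ker (sub0 m a)) ≃ₐ[k] MvPolynomial (Fin m) k :=
    Ideal.quotientKerAlgEquivOfSurjective (sub0_surj m a)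
  rw [ker_sub0] at e
  exact isoQ hQ e.symm (hs m)

/-- One copy. -/
lemma copy_step {m : ℕ} (g : MvPolynomial (Fin m) k) (n : ℕ) {a b : ℤ}
    (h1 : Q (V (up g * pr k m n)) a) (h2 : Q (V (up g * pr k m (n + 1))) b) :
    Q (V g) (a - b) := by
  rw [pr_succ, ← mul_assoc] at h2
  have h3 := two_closed hQ (up g * pr k m n) (X 0 - C (n : k)) h1 (hyper_line hQ hs m n) h2
  obtain ⟨e⟩ := quot_surj (sub0 m (n : k)) (sub0_surj m _) (ker_sub0 m (n : k)) (up g * pr k m n)
  have h4 := isoQ hQ e h3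
  obtain ⟨c, hc, h5⟩ := sub0_pr (k := k) m n
  have h6 : Ideal.span {sub0 m (n : k) (up g * pr k m n)} = Ideal.span {g} := by
    rw [map_mul, sub0_up, h5]
    exact Ideal.span_singleton_mul_right_unit (by
      rw [isUnit_iff_exists_inv]
      exact ⟨C c⁻¹, by rw [← C_mul, mul_inv_cancel₀ hc, C_1]⟩) g
  rw [h6, add_zero] at h4
  exact h4

/-- Many copies. -/
theorem copies {m : ℕ} {e : MvPolynomial (Fin (m + 1)) k → ℤ} (he : ∀ F, Q (V F) (e F))
    (g : MvPolynomial (Fin m) k) : ∃ c, Q (V g) c ∧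
      ∀ n : ℕ, (n : ℤ) * c = e (up g * pr k m 0) - e (up g * pr k m n) := by
  have h1 : ∀ n, Q (V g) (e (up g * pr k m n) - e (up g * pr k m (n + 1))) := fun n =>
    copy_step hQ hs g n (he _) (he _)
  refine ⟨_, h1 0, fun n => ?_⟩
  induction n with
  | zero => simp
  | succ n ih =>
    have h2 := hQ.uniq (h1 0) (h1 n)
    push_cast
    rw [add_mul, ih, one_mul, h2]
    ring

end Pool.Agent.Helper24.KE
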