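import Pool.Agent.Helper19.UA.Base

/-!
# Additive defects of schemes
-/

set_option autoImplicit false

open CategoryTheory AlgebraicGeometry MvPolynomial Pool.Agent.Y116.UV Pool.Agent.Helper62.EC

namespace Pool.Agent.Helper24.KE

/-- `Q X c`: the defect of `X` is `c`. It is additive for closed-open decompositions. -/
structure Dfc {R : Type} [CommRing R] (sep : Prop) (Q : Sch R → ℤ → Prop) : Prop where
  iso : ∀ {X Y : Sch R} {c : ℤ}, FT sep X → Nonempty (X ≅ Y) → Q X c → Q Y c
  total : ∀ {Z X U : Sch R} (i : Z ⟶ X) (j : U ⟶ X) {a b : ℤ}, FT sep X → IsTriple i j →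
    Q Z a → Q U b → Q X (a + b)
  opened : ∀ {Z X U : Sch R} (i : Z ⟶ X) (j : U ⟶ X) {a b : ℤ}, FT sep X → IsTriple i j →
    Q Z a → Q X b → Q U (b - a)
  closed : ∀ {Z X U : Sch R} (i : Z ⟶ X) (j : U ⟶ X) {a b : ℤ}, FT sep X → IsTriple i j →
    Q X a → Q U b → Q Z (a - b)
  uniq : ∀ {X : Sch R} {c c' : ℤ}, Q X c → Q X c' → c = c'

variable {R : Type} [CommRing R] {sep : Prop} {Q : Sch R → ℤ → Prop} (hQ : Dfc sep Q)

include hQ

/-- The schemes with defect zero. -/
theorem Dfc.cls : Cls sep fun X => Q X 0 where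
  iso hX e h := hQ.iso hX e h
  total i j hX ht h1 h2 := by
    have := hQ.total i j hX ht h1 h2
    rwa [add_zero] at this
  opened i j hX ht h1 h2 := by
    have := hQ.opened i j hX ht h1 h2
    rwa [sub_zero] at this
  closed i j hX ht h1 h2 := by
    have := hQ.closed i j hX ht h1 h2
    rwa [sub_zero] at this

lemma isoQ {A B : Type} [CommRing A] [CommRing B] [Algebra R A] [Algebra R B]
    [Algebra.FiniteType R A] (e : A ≃ₐ[R] B) {c : ℤ} (h : Q (aff R A) c) : Q (aff R B) c :=
  hQ.iso (ft_aff sep) ⟨(affIso e).symm⟩ h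

section split

variable {A : Type} [CommRing A] [Algebra R A] [Algebra.FiniteType R A]

lemma totalQ (w : A) {a b : ℤ} (h1 : Q (aff R (A ⧸ Ideal.span {w})) a)
    (h2 : Q (aff R (Localization.Away w)) b) : Q (aff R A) (a + b) :=
  hQ.total _ _ (ft_aff sep) (triple_away w) h1 h2

lemma openQ (w : A) {a b : ℤ} (h1 : Q (aff R (A ⧸ Ideal.span {w})) a) (h2 : Q (aff R A) b) :
    Q (aff R (Localization.Away w)) (b - a) :=
  hQ.opened _ _ (ft_aff sep) (triple_away w) h1 h2

lemma closedQ (w : A) {a b : ℤ} (h1 : Q (aff R A) a) (h2 : Q (aff R (Localization.Away w)) b) :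
    Q (aff R (A ⧸ Ideal.span {w})) (a - b) :=
  hQ.closed _ _ (ft_aff sep) (triple_away w) h1 h2

omit hQ [Algebra.FiniteType R A] in
lemma map_span_one (I : Ideal A) (a : A) : Ideal.map (Ideal.Quotient.mkₐ R I) (Ideal.span {a}) =
    Ideal.span {Ideal.Quotient.mk I a} := by
  rw [Ideal.map_span, Set.image_singleton]
  rfl

lemma quotQ (I : Ideal A) (a : A) {c : ℤ} (h : Q (aff R (A ⧸ (I ⊔ Ideal.span {a}))) c) :
    Q (aff R ((A ⧸ I) ⧸ Ideal.span {Ideal.Quotient.mk I a})) c := by
  rw [← map_span_one (R := R)]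
  exact isoQ hQ (DoubleQuot.quotQuotEquivQuotSupₐ R I (Ideal.span {a})).symm h

lemma quotQ' (I : Ideal A) (a : A) {c : ℤ}
    (h : Q (aff R ((A ⧸ I) ⧸ Ideal.span {Ideal.Quotient.mk I a})) c) :
    Q (aff R (A ⧸ (I ⊔ Ideal.span {a}))) c := by
  rw [← map_span_one (R := R)] at h
  exact isoQ hQ (DoubleQuot.quotQuotEquivQuotSupₐ R I (Ideal.span {a})) h

end split

omit hQ in
/-- If `h J ⊆ K ⊆ J`, then `A / K` and `A / J` have the same localisation at `h`. -/
lemma loc_equiv {A : Type} [CommRing A] [Algebra R A] (J K : Ideal A) (hKJ : K ≤ J) (h : A)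
    (hJ : ∀ x ∈ J, h * x ∈ K) : Nonempty (Localization.Away (Ideal.Quotient.mk K h) ≃ₐ[R]
      Localization.Away (Ideal.Quotient.mk J h)) := by
  let B := A ⧸ K
  let S := Localization.Away (Ideal.Quotient.mk J h)
  let f : B →+* S := (algebraMap (A ⧸ J) S).comp (Ideal.Quotient.factor hKJ)
  let _ : Algebra B S := f.toAlgebra
  have hf : ∀ x : A, algebraMap B S (Ideal.Quotient.mk K x) =
      algebraMap (A ⧸ J) S (Ideal.Quotient.mk J x) := fun x => rfl
  have hloc : IsLocalization.Away (Ideal.Quotient.mk K h) S := by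
    have hu : IsUnit (algebraMap B S (Ideal.Quotient.mk K h)) := by
      rw [hf]
      exact IsLocalization.Away.algebraMap_isUnit (S := S) (Ideal.Quotient.mk J h)
    refine ⟨?_, ?_, ?_⟩
    · rintro ⟨_, n, rfl⟩
      change IsUnit (algebraMap B S ((Ideal.Quotient.mk K h) ^ n))
      rw [map_pow]
      exact hu.pow n
    · intro z
      obtain ⟨⟨y, ⟨_, n, rfl⟩⟩, hy⟩ := IsLocalization.surj
        (Submonoid.powers (Ideal.Quotient.mk J h)) z
      obtain ⟨y, rfl⟩ := Ideal.Quotient.mk_surjective y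
      refine ⟨(Ideal.Quotient.mk K y, ⟨(Ideal.Quotient.mk K h) ^ n, n, rfl⟩), ?_⟩
      have h9 : algebraMap B S ((Ideal.Quotient.mk K h) ^ n) =
          algebraMap (A ⧸ J) S ((Ideal.Quotient.mk J h) ^ n) := by
        rw [← map_pow (Ideal.Quotient.mk K), hf, map_pow]
      change z * algebraMap B S ((Ideal.Quotient.mk K h) ^ n) =
        algebraMap B S (Ideal.Quotient.mk K y)
      rw [h9, hf]
      exact hy
    · intro x y hxy
      obtain ⟨x, rfl⟩ := Ideal.Quotient.mk_surjective x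
      obtain ⟨y, rfl⟩ := Ideal.Quotient.mk_surjective y
      rw [hf, hf] at hxy
      obtain ⟨⟨_, n, rfl⟩, hc⟩ := (IsLocalization.eq_iff_exists
        (Submonoid.powers (Ideal.Quotient.mk J h)) S).mp hxy
      have h6 : Ideal.Quotient.mk J (h ^ n * x - h ^ n * y) = 0 := by
        rw [map_sub, map_mul, map_mul, map_pow]
        exact sub_eq_zero.mpr hc
      rw [Ideal.Quotient.eq_zero_iff_mem] at h6
      refine ⟨⟨(Ideal.Quotient.mk K h) ^ (n + 1), n + 1, rfl⟩, ?_⟩
      change (Ideal.Quotient.mk K h) ^ (n + 1) * _ = (Ideal.Quotient.mk K h) ^ (n + 1) * _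
      rw [← map_pow, ← map_mul, ← map_mul, ← sub_eq_zero, ← map_sub,
        Ideal.Quotient.eq_zero_iff_mem]
      have h7 : h ^ (n + 1) * x - h ^ (n + 1) * y = h * (h ^ n * x - h ^ n * y) := by ring
      rw [h7]
      exact hJ _ h6
  let e : Localization.Away (Ideal.Quotient.mk K h) ≃ₐ[B] S :=
    IsLocalization.algEquiv (Submonoid.powers (Ideal.Quotient.mk K h))
      (Localization.Away (Ideal.Quotient.mk K h)) S
  exact ⟨AlgEquiv.ofRingEquiv (f := e.toRingEquiv) (by
      intro r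
      have h8 : algebraMap R (Localization.Away (Ideal.Quotient.mk K h)) r =
        algebraMap B _ (algebraMap R B r) := IsScalarTower.algebraMap_apply _ _ _ _
      have h9 : algebraMap R S r = algebraMap B S (algebraMap R B r) := rfl
      change e (algebraMap R _ r) = _
      rw [h8, h9, e.commutes])⟩

section two

variable {A : Type} [CommRing A] [Algebra R A] [Algebra.FiniteType R A]

omit hQ [Algebra R A] [Algebra.FiniteType R A] in
lemma mul_le (F G : A) : Ideal.span {F * G} ≤ Ideal.span {G} := by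
  rw [Ideal.span_singleton_le_span_singleton]
  exact Dvd.intro_left F rfl

omit hQ [Algebra R A] [Algebra.FiniteType R A] in
lemma mul_mem (F G : A) : ∀ x ∈ Ideal.span {G}, F * x ∈ Ideal.span {F * G} := by
  intro x hx
  rw [Ideal.mem_span_singleton] at hx ⊢
  exact mul_dvd_mul_left F hx

/-- The part of `F G = 0` where `F` is invertible. -/
lemma part_open (F G : A) {a c : ℤ} (h1 : Q (aff R (A ⧸ Ideal.span {F})) a)
    (h2 : Q (aff R (A ⧸ Ideal.span {F * G})) c) :
    Q (aff R (Localization.Away (Ideal.Quotient.mk (Ideal.span {G}) F))) (c - a) := by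
  have h3 : Q (aff R ((A ⧸ Ideal.span {F * G}) ⧸
      Ideal.span {Ideal.Quotient.mk (Ideal.span {F * G}) F})) a := by
    apply quotQ hQ
    rwa [sup_eq_right.mpr]
    rw [Ideal.span_singleton_le_span_singleton]
    exact Dvd.intro G rfl
  have h4 := openQ hQ _ h3 h2
  obtain ⟨e⟩ := loc_equiv (R := R) (Ideal.span {G}) (Ideal.span {F * G}) (mul_le F G) F (mul_mem F G)
  exact isoQ hQ e h4

/-- The intersection of two hypersurfaces. -/
theorem two_closed (F G : A) {a b c : ℤ} (h1 : Q (aff R (A ⧸ Ideal.span {F})) a)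
    (h2 : Q (aff R (A ⧸ Ideal.span {G})) b) (h3 : Q (aff R (A ⧸ Ideal.span {F * G})) c) :
    Q (aff R (A ⧸ (Ideal.span {G} ⊔ Ideal.span {F}))) (a + b - c) := by
  have h4 := closedQ hQ _ h2 (part_open hQ F G h1 h3)
  have h5 := quotQ' hQ _ _ h4
  rwa [show b - (c - a) = a + b - c by ring] at h5

/-- The union of two hypersurfaces. -/
theorem two_total (F G : A) {a b d : ℤ} (h1 : Q (aff R (A ⧸ Ideal.span {F})) a)
    (h2 : Q (aff R (A ⧸ Ideal.span {G})) b)
    (h3 : Q (aff R (A ⧸ (Ideal.span {G} ⊔ Ideal.span {F}))) d) :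
    Q (aff R (A ⧸ Ideal.span {F * G})) (a + b - d) := by
  have h4 := openQ hQ _ (quotQ hQ _ _ h3) h2
  obtain ⟨e⟩ := loc_equiv (R := R) (Ideal.span {G}) (Ideal.span {F * G}) (mul_le F G) F (mul_mem F G)
  have : Algebra.FiniteType R (Localization.Away (Ideal.Quotient.mk (Ideal.span {G}) F)) :=
    Algebra.FiniteType.trans (S := A ⧸ Ideal.span {G}) inferInstance inferInstance
  have h5 := isoQ hQ e.symm h4
  have h6 : Q (aff R ((A ⧸ Ideal.span {F * G}) ⧸
      Ideal.span {Ideal.Quotient.mk (Ideal.span {F * G}) F})) a := by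
    apply quotQ hQ
    rwa [sup_eq_right.mpr]
    rw [Ideal.span_singleton_le_span_singleton]
    exact Dvd.intro G rfl
  have h7 := totalQ hQ _ h6 h5
  rwa [show a + (b - d) = a + b - d by ring] at h7

end two

end Pool.Agent.Helper24.KE
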