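import Pool.Agent.Helper24.KE.Bound
import Pool.Graph.R_seed8.Z125.UN.Emb

/-!
# Translates of hypersurfaces
-/

set_option autoImplicit false

open CategoryTheory AlgebraicGeometry MvPolynomial Pool.Agent.Y116.UV Pool.Agent.Helper62.EC

namespace Pool.Agent.Helper24.KE

section poly

variable {S : Type} [CommRing S] [IsDomain S] [CharZero S]

/-- Different translates of a polynomial of positive degree are not associated. -/
lemma not_assoc {G : Polynomial S} (hG : 0 < G.natDegree) {i j : ℕ} (hij : i ≠ j) :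
    ¬ Associated (Polynomial.taylor (i : S) G) (Polynomial.taylor (j : S) G) := by
  rintro ⟨u, hu⟩
  obtain ⟨v, hv, hv2⟩ := Polynomial.isUnit_iff.mp u.isUnit
  have hG0 : G ≠ 0 := by
    rintro rfl
    simp at hG
  have h1 := congrArg Polynomial.leadingCoeff hu
  rw [← hv2, Polynomial.leadingCoeff_mul, Polynomial.leadingCoeff_C, Polynomial.leadingCoeff_taylor,
    Polynomial.leadingCoeff_taylor] at h1
  have h2 : v = 1 := mul_left_cancel₀ (Polynomial.leadingCoeff_ne_zero.mpr hG0)
    (h1.trans (mul_one _).symm)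
  rw [← hv2, h2, Polynomial.C_1, mul_one] at hu
  set d : S := (i : S) - (j : S) with hd
  have hd0 : d ≠ 0 := by
    rw [hd, sub_ne_zero]
    exact_mod_cast hij
  have h3 : ∀ x : S, G.eval (x + d) = G.eval x := by
    intro x
    have h4 := congrArg (Polynomial.eval (x - j)) hu
    rw [Polynomial.taylor_eval, Polynomial.taylor_eval, sub_add_cancel] at h4
    rw [← h4]
    congr 1
    rw [hd]
    ring
  have h4 : ∀ n : ℕ, G.eval ((n : S) * d) = G.eval 0 := by
    intro n
    induction n with
    | zero => simp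
    | succ n ih =>
      rw [← ih, ← h3 ((n : S) * d)]
      congr 1
      push_cast
      ring
  have h5 : G = Polynomial.C (G.eval 0) := by
    refine Polynomial.eq_of_infinite_eval_eq _ _ ?_
    refine Set.Infinite.mono (s := Set.range fun n : ℕ => (n : S) * d) ?_ ?_
    · rintro _ ⟨n, rfl⟩
      change G.eval _ = _
      rw [h4, Polynomial.eval_C]
    · refine Set.infinite_range_of_injective fun a b hab => ?_
      have h6 := mul_right_cancel₀ hd0 hab
      exact_mod_cast h6
  rw [h5, Polynomial.natDegree_C] at hG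
  exact lt_irrefl _ hG

end poly

section dims

variable {k : Type} [Field k]

/-- Two coprime equations. -/
lemma dim_coprime {m : ℕ} {x y : MvPolynomial (Fin (m + 1)) k} (hx : x ≠ 0)
    (h : IsRelPrime x y) :
    ringKrullDim (MvPolynomial (Fin (m + 1)) k ⧸ (Ideal.span {x} ⊔ Ideal.span {y})) + 1 ≤ m := by
  have h1 : ringKrullDim (MvPolynomial (Fin (m + 1)) k ⧸ Ideal.span {x}) ≤ m :=
    Pool.Agent.Z125.UN.dim_quot _ (by
      rw [Ne, Ideal.span_singleton_eq_bot]
      exact hx)
  refine le_trans ?_ h1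
  have hy : Ideal.Quotient.mk (Ideal.span {x}) y ∈ nonZeroDivisors
      (MvPolynomial (Fin (m + 1)) k ⧸ Ideal.span {x}) := by
    rw [mem_nonZeroDivisors_iff_right]
    intro z hz
    obtain ⟨z, rfl⟩ := Ideal.Quotient.mk_surjective z
    rw [← map_mul, Ideal.Quotient.eq_zero_iff_mem, Ideal.mem_span_singleton] at hz
    rw [Ideal.Quotient.eq_zero_iff_mem, Ideal.mem_span_singleton]
    exact h.dvd_of_dvd_mul_right hz
  have h2 := ringKrullDim_quotient_succ_le_of_nonZeroDivisor hy
  have e : ((MvPolynomial (Fin (m + 1)) k ⧸ Ideal.span {x}) ⧸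
      Ideal.span {Ideal.Quotient.mk (Ideal.span {x}) y}) ≃+*
        (MvPolynomial (Fin (m + 1)) k ⧸ (Ideal.span {x} ⊔ Ideal.span {y})) := by
    have h3 : Ideal.span {Ideal.Quotient.mk (Ideal.span {x}) y} =
        Ideal.map (Ideal.Quotient.mk (Ideal.span {x})) (Ideal.span {y}) := by
      rw [Ideal.map_span, Set.image_singleton]
    rw [h3]
    exact DoubleQuot.quotQuotEquivQuotSup _ _
  rwa [ringKrullDim_eq_of_ringEquiv e] at h2

end dims

section

variable {k : Type} [Field k] [CharZero k] {sep : Prop} {Q : Sch k → ℤ → Prop} (hQ : Dfc sep Q)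
  (hs : ∀ m : ℕ, Q (aff k (MvPolynomial (Fin m) k)) 0)

omit [CharZero k] in
lemma finSucc_tr (m j : ℕ) (p : MvPolynomial (Fin (m + 1)) k) :
    finSuccEquiv k m (tr k m j p) = Polynomial.taylor ((j : ℕ) : MvPolynomial (Fin m) k)
      (finSuccEquiv k m p) := by
  unfold tr
  rw [AlgEquiv.trans_apply, AlgEquiv.apply_symm_apply]
  have h : ((j : ℕ) : MvPolynomial (Fin m) k) = C (j : k) := (map_natCast C j).symm
  rw [h]
  rfl

lemma tr_coprime {m : ℕ} {p : MvPolynomial (Fin (m + 1)) k} (hp : Irreducible p)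
    (h0 : 0 < p.degreeOf 0) {i j : ℕ} (hij : i ≠ j) : IsRelPrime (tr k m i p) (tr k m j p) := by
  have h1 : ∀ i, Irreducible (tr k m i p) := fun i => (MulEquiv.irreducible_iff (tr k m i)).mpr hp
  rw [(h1 i).isRelPrime_iff_not_dvd]
  intro h2
  have h3 := (h1 i).associated_of_dvd (h1 j) h2
  have h4 : Associated (finSuccEquiv k m (tr k m i p)) (finSuccEquiv k m (tr k m j p)) :=
    h3.map (finSuccEquiv k m)
  rw [finSucc_tr, finSucc_tr] at h4
  exact not_assoc (by rwa [natDegree_finSuccEquiv]) hij h4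

include hQ hs

omit [CharZero k] in
lemma empty (B : Type) [CommRing B] [Algebra k B] (hB : Subsingleton B) : Q (aff k B) 0 :=
  p_empty hQ.cls (hs 0) B hB

omit [CharZero k] in
/-- Small dimensions. -/
lemma low_dims [PerfectField k] {m : ℕ} (h : ∀ g : MvPolynomial (Fin m) k, Q (V g) 0) (A : Type)
    [CommRing A] [Algebra k A] [Algebra.FiniteType k A] (hA : ringKrullDim A + 1 ≤ m) :
    Q (aff k A) 0 := by
  cases m with
  | zero =>
    refine empty hQ hs A ?_
    by_contra h1
    rw [not_subsingleton_iff_nontrivial] at h1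
    have h2 : (0 : WithBot ℕ∞) ≤ ringKrullDim A := ringKrullDim_nonneg_of_nontrivial
    have h3 : (1 : WithBot ℕ∞) ≤ 0 := by
      refine le_trans ?_ hA
      calc (1 : WithBot ℕ∞) = 0 + 1 := (zero_add 1).symm
        _ ≤ ringKrullDim A + 1 := by gcongr
    exact absurd h3 (by decide)
  | succ m =>
    refine Pool.Agent.Helper19.UA.closed_to_dim hQ.cls
      (Pool.Agent.Helper19.UA.closed_all hQ.cls (hs _) h) A ?_
    have h1 : ringKrullDim A + 1 ≤ (m : WithBot ℕ∞) + 1 := by exact_mod_cast hA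
    exact ENat.WithBot.add_le_add_one_right_iff.mp h1

omit [CharZero k] hs in
lemma tr_V {m : ℕ} (p : MvPolynomial (Fin (m + 1)) k) (j : ℕ) {c : ℤ} (h : Q (V p) c) :
    Q (V (tr k m j p)) c := by
  refine isoQ hQ (Ideal.quotientEquivAlg (Ideal.span {p}) (Ideal.span {tr k m j p}) (tr k m j)
    ?_) h
  rw [Ideal.map_span, Set.image_singleton]
  rfl

/-- The product of the translates. -/
lemma prod_tr {m : ℕ} (hl : ∀ (A : Type) [CommRing A] [Algebra k A] [Algebra.FiniteType k A],
    ringKrullDim A + 1 ≤ m → Q (aff k A) 0) {p : MvPolynomial (Fin (m + 1)) k}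
    (hp : Irreducible p) (h0 : 0 < p.degreeOf 0) {c : ℤ} (h : Q (V p) c) (n : ℕ) :
    Q (V (∏ j ∈ Finset.range n, tr k m j p)) (n * c) := by
  induction n with
  | zero =>
    rw [Finset.prod_range_zero]
    simp only [Nat.cast_zero, zero_mul]
    exact empty hQ hs _ (Ideal.Quotient.subsingleton_iff.mpr Ideal.span_singleton_one)
  | succ n ih =>
    rw [Finset.prod_range_succ]
    have h1 : IsRelPrime (tr k m n p) (∏ j ∈ Finset.range n, tr k m j p) := by
      refine IsRelPrime.prod_right fun i hi => tr_coprime hp h0 ?_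
      rw [Finset.mem_range] at hi
      omega
    have h2 : tr k m n p ≠ 0 := ((MulEquiv.irreducible_iff (tr k m n)).mpr hp).ne_zero
    have h3 := two_total hQ _ _ ih (tr_V hQ p n h) (hl _ (dim_coprime h2 h1))
    have h4 : ((n + 1 : ℕ) : ℤ) * c = n * c + c - 0 := by
      push_cast
      ring
    rw [h4]
    exact h3

variable {sz : ∀ m, MvPolynomial (Fin m) k → ℝ} (hz : Size sz)

include hz

/-- Irreducible hypersurfaces, first case. -/
lemma irr_zero {m : ℕ} (hl : ∀ (A : Type) [CommRing A] [Algebra k A] [Algebra.FiniteType k A],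
    ringKrullDim A + 1 ≤ m → Q (aff k A) 0) (h : Small sz Q (m + 1) 1)
    {p : MvPolynomial (Fin (m + 1)) k} (hp : Irreducible p) (h0 : 0 < p.degreeOf 0) :
    Q (V p) 0 := by
  obtain ⟨K, hK, hK2⟩ := hz.trans m p
  obtain ⟨e, he, hB⟩ := h.fn hQ
  obtain ⟨B, hB⟩ := hB (1 / (2 * (K + 1))) (by positivity)
  have h1 := he p
  rcases eq_or_ne (e p) 0 with hc | hc
  · rwa [hc] at h1
  exfalso
  set c := e p with hcc
  have hc1 : (1 : ℝ) ≤ |(c : ℝ)| := by
    have : (1 : ℤ) ≤ |c| := Int.one_le_abs hc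
    exact_mod_cast this
  obtain ⟨n, hn⟩ := exists_nat_gt (2 * (1 + |B|))
  have h2 := hQ.uniq (prod_tr hQ hs hl hp h0 h1 n) (he _)
  have h3 := hB (∏ j ∈ Finset.range n, tr k m j p)
  rw [← h2, pow_one] at h3
  push_cast at h3
  rw [abs_mul, abs_of_nonneg (Nat.cast_nonneg (α := ℝ) n)] at h3
  have h4 : (n : ℝ) ≤ n * |(c : ℝ)| := by nlinarith [Nat.cast_nonneg (α := ℝ) n]
  have h5 : 1 / (2 * (K + 1)) * sz (m + 1) (∏ j ∈ Finset.range n, tr k m j p) ≤
      ((n : ℝ) + 1) / 2 := by
    refine (mul_le_mul_of_nonneg_left (hK2 n) (by positivity)).trans ?_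
    rw [div_mul_eq_mul_div, one_mul, div_le_div_iff₀ (by positivity) (by norm_num)]
    nlinarith [Nat.cast_nonneg (α := ℝ) n]
  linarith [le_abs_self B]

/-- Irreducible hypersurfaces. -/
lemma irr_zero' {m : ℕ} (hl : ∀ (A : Type) [CommRing A] [Algebra k A] [Algebra.FiniteType k A],
    ringKrullDim A + 1 ≤ m → Q (aff k A) 0) (h : Small sz Q (m + 1) 1)
    {p : MvPolynomial (Fin (m + 1)) k} (hp : Irreducible p) : Q (V p) 0 := by
  have h1 : ∃ l, 0 < p.degreeOf l := by
    by_contra hcon
    push Not at hcon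
    have h2 : p.totalDegree = 0 := by
      rw [totalDegree_eq_zero_iff]
      intro s hs x
      have h3 := monomial_le_degreeOf x hs
      have h4 := hcon x
      omega
    rw [totalDegree_eq_zero_iff_eq_C] at h2
    have h3 : coeff 0 p ≠ 0 := by
      intro h4
      rw [h4, C_0] at h2
      exact hp.ne_zero h2
    apply hp.not_isUnit
    rw [h2]
    exact (isUnit_iff_ne_zero.mpr h3).map C
  obtain ⟨l, hl0⟩ := h1
  let e : MvPolynomial (Fin (m + 1)) k ≃ₐ[k] MvPolynomial (Fin (m + 1)) k :=
    renameEquiv k (Equiv.swap 0 l)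
  have h2 : Irreducible (e p) := (MulEquiv.irreducible_iff e).mpr hp
  have h3 : 0 < (e p).degreeOf 0 := by
    have h4 := degreeOf_rename_of_injective (p := p) (Equiv.swap 0 l).injective l
    rw [Equiv.swap_apply_right] at h4
    change 0 < (rename (Equiv.swap 0 l) p).degreeOf 0
    rwa [h4]
  have h4 := irr_zero hQ hs hz hl h h2 h3
  refine isoQ hQ (Ideal.quotientEquivAlg (Ideal.span {p}) (Ideal.span {e p}) e ?_).symm h4
  rw [Ideal.map_span, Set.image_singleton]
  rfl

/-- All hypersurfaces. -/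
theorem hyp_zero {m : ℕ} (hl : ∀ (A : Type) [CommRing A] [Algebra k A] [Algebra.FiniteType k A],
    ringKrullDim A + 1 ≤ m → Q (aff k A) 0) (h : Small sz Q (m + 1) 1)
    (F : MvPolynomial (Fin (m + 1)) k) : Q (V F) 0 := by
  induction F using UniqueFactorizationMonoid.induction_on_coprime with
  | h0 =>
    have h1 : Ideal.span {(0 : MvPolynomial (Fin (m + 1)) k)} = ⊥ := Ideal.span_singleton_eq_bot.mpr rfl
    unfold V
    rw [h1]
    exact isoQ hQ (AlgEquiv.quotientBot k _).symm (hs _)
  | h1 hx =>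
    exact empty hQ hs _ (Ideal.Quotient.subsingleton_iff.mpr (Ideal.span_singleton_eq_top.mpr hx))
  | hpr i hp =>
    rename_i p
    have h1 : Q (V p) 0 := irr_zero' hQ hs hz hl h hp.irreducible
    induction i with
    | zero =>
      rw [pow_zero]
      exact empty hQ hs _ (Ideal.Quotient.subsingleton_iff.mpr Ideal.span_singleton_one)
    | succ i ih =>
      rcases Nat.eq_zero_or_pos i with hi | hi
      · subst hi
        rwa [zero_add, pow_one]
      · rw [pow_succ]
        have h2 : Ideal.span {p} ⊔ Ideal.span {p ^ i} = Ideal.span {p} := by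
          rw [sup_eq_left, Ideal.span_singleton_le_span_singleton]
          exact dvd_pow_self p hi.ne'
        have h3 := two_total hQ (p ^ i) p (a := 0) (b := 0) (d := 0) ih h1 (by rw [h2]; exact h1)
        simpa using h3
  | hcp hxy hx hy =>
    rename_i x y
    rcases eq_or_ne y 0 with h0 | h0
    · rw [h0, mul_zero, ← h0]
      exact hy
    · have h3 := two_total hQ x y hx hy (hl _ (dim_coprime h0 hxy.symm))
      simpa using h3

/-- **The main theorem on defects.** -/
theorem main_zero [PerfectField k] {m κ : ℕ} (h : Small sz Q (m + (κ + 1)) (κ + 1)) (X : Sch k)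
    (hX : FT sep X) (hm : topologicalKrullDim X.left ≤ m) : Q X 0 := by
  have h1 := down hQ hs hz κ h
  have h2 := last hQ hs hz h1
  have h3 := hyp_zero hQ hs hz (fun A _ _ _ hA => low_dims hQ hs h2 A hA) h1
  exact Pool.Agent.Helper19.UA.of_hyp hQ.cls (hs _) h3 X hX hm

end

end Pool.Agent.Helper24.KE
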